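import Pool.Agent.Q209.MP.Crit

/-!
Families with one parameter of subsets of `Y(1)^n × G_m^k` with partial degenerations: the members with
parameters in finitely generated fields and rings, and with transcendental parameters (helper file;
adapted from `Pool.Agent.Q170.PD.FG` and `Pool.Agent.Q170.PD.Trans`).
-/

set_option autoImplicit false

namespace Pool.Agent.Q209.MP

open Pool.Agent
open H294ZP UpperHalfPlane MvPolynomial Pool.Agent.W282.ZP Pool.Agent.Y910.Z
open Pool.Agent.TH526.ZL (spec coefs1 coefs1_finite coefsT coefsT_finite)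
open Pool.Agent.Q170.RG (order int_up hom_lift)
open Pool.Agent.Q170.PD (IndPos W0 W0_map W0_spec W0_ne)
open Pool.Agent.Y152.RP.FamM (SpecialVariety SpecialVariety.locus coset NoAtypical evalAt
  rel_of_locus)

section near

variable {k : Type} [Field k]

/-- The members of a family near the degenerate ones. -/
theorem nearSM [Algebra k ℂ] [IsAlgClosed k] {κ : Type} [Finite κ] {ι : Type} [Fintype ι]
    {ι' : Type} [Finite ι']
    {N m M : ℕ} (G : κ → MvPolynomial (Fin (N + 1)) (Polynomial k))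
    (A B : ι → MvPolynomial (Fin (N + 1)) (Polynomial k))
    (c : ι' → Polynomial k) (ρ : Fin M → k) (need : Fin M → ι → ℕ)
    (hc : ∀ i, c i ≠ 0)
    (hdis : ∀ l, ∀ I : Finset ι, I.card = m + 1 → ∀ y : Fin (N + 1) → ℂ,
      (∀ i, aeval y (spec (ρ l) (G i)) = 0) →
      (∀ i ∈ I, aeval y (spec (ρ l) (W0 (need l i) (A i) (B i))) = 0) →
        y = 0)
    (Γ : Set k) (hΓ : Γ.Finite) :
    ∃ W : Set k, W.Finite ∧ Γ ⊆ W ∧ (∀ l, ρ l ∈ W) ∧ ∀ Λ : Subring k, W ⊆ (Λ : Set k) →
      ∃ (G' : κ → MvPolynomial (Fin (N + 1)) (Polynomial Λ))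
        (A' B' : ι → MvPolynomial (Fin (N + 1)) (Polynomial Λ))
        (c' : ι' → Polynomial Λ),
        (∀ i, MvPolynomial.map (Polynomial.mapRingHom Λ.subtype) (G' i) = G i) ∧
        (∀ i, MvPolynomial.map (Polynomial.mapRingHom Λ.subtype) (A' i) = A i) ∧
        (∀ i, MvPolynomial.map (Polynomial.mapRingHom Λ.subtype) (B' i) = B i) ∧
        (∀ i, (c' i).map Λ.subtype = c i) ∧
        ∀ (l : Fin M) (r t : Λ), (r : k) = ρ l →
          (∀ (F : Type) [Field F] (φ : Λ →+* F), φ (t - r) = 0 → ∀ I : Finset ι,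
            I.card = m + 1 → ∀ y : Fin (N + 1) → F, y ≠ 0 →
            (∀ i, eval₂ φ y (spec t (G' i)) = 0) →
            ∃ i ∈ I, eval₂ φ y (spec t (B' i)) ≠ 0 ∧
              (0 < need l i → eval₂ φ y (spec t (A' i)) ≠ 0)) ∧
          ∀ 𝔭 : Ideal Λ, 𝔭.IsPrime → t - r ∈ 𝔭 → ∀ i, ∃ b : Λ, b ∉ 𝔭 ∧
            (c' i).eval t = b * (t - r) ^ (c i).rootMultiplicity (ρ l) := by
  classical
  have := Fintype.ofFinite ι'
  have hcert := fun (l : Fin M) (I : {I : Finset ι // I.card = m + 1}) =>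
    cert_ring (k := k) (fun b : κ ⊕ I.1 => Sum.elim (fun i => spec (ρ l) (G i))
        (fun i : I.1 => spec (ρ l) (W0 (need l i) (A i) (B i))) b)
        (fun y hb =>
      hdis l I.1 I.2 y (fun i => hb (Sum.inl i)) fun i hi => by
        have := hb (Sum.inr ⟨i, hi⟩)
        simpa only [Sum.elim_inr] using this)
  choose WC hWC hWC' using hcert
  have hq : ∀ (l : Fin M) (i : ι'), ∃ q : Polynomial k,
      c i = (Polynomial.X - Polynomial.C (ρ l)) ^ (c i).rootMultiplicity (ρ l) * q ∧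
        q.eval (ρ l) ≠ 0 := by
    intro l i
    obtain ⟨q, hq1, hq2⟩ :=
      Polynomial.exists_eq_pow_rootMultiplicity_mul_and_not_dvd (c i) (hc i) (ρ l)
    refine ⟨q, hq1, fun h => hq2 ?_⟩
    rw [Polynomial.dvd_iff_isRoot]
    exact h
  choose q hq1 hq2 using hq
  let W1 : Set k := (⋃ p : Fin M × {I : Finset ι // I.card = m + 1}, WC p.1 p.2) ∪
    ((⋃ i, coefsT (A i)) ∪ ((⋃ i, coefsT (B i)) ∪ ((⋃ i, coefsT (G i)) ∪
    ((⋃ i, coefs1 (c i)) ∪ ((⋃ p : Fin M × ι', coefs1 (q p.1 p.2)) ∪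
    ((Set.range fun p : Fin M × ι' => ((q p.1 p.2).eval (ρ p.1))⁻¹) ∪
    (Set.range ρ ∪ Γ)))))))
  have hW1 : W1.Finite := by
    refine Set.Finite.union (Set.finite_iUnion fun p => hWC _ _) ?_
    refine Set.Finite.union (Set.finite_iUnion fun i => coefsT_finite _) ?_
    refine Set.Finite.union (Set.finite_iUnion fun i => coefsT_finite _) ?_
    refine Set.Finite.union (Set.finite_iUnion fun i => coefsT_finite _) ?_
    refine Set.Finite.union (Set.finite_iUnion fun i => coefs1_finite _) ?_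
    refine Set.Finite.union (Set.finite_iUnion fun p => coefs1_finite _) ?_
    refine Set.Finite.union (Set.finite_range _) ?_
    exact Set.Finite.union (Set.finite_range _) hΓ
  refine ⟨W1, hW1, fun z hz => by
    refine Or.inr (Or.inr (Or.inr (Or.inr (Or.inr (Or.inr (Or.inr (Or.inr ?_)))))))
    exact hz, fun l => by
    refine Or.inr (Or.inr (Or.inr (Or.inr (Or.inr (Or.inr (Or.inr (Or.inl ?_)))))))
    exact ⟨l, rfl⟩, fun Λ hΛ => ?_⟩
  have m0 : ∀ l I, WC l I ⊆ (Λ : Set k) := fun l I z hz =>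
    hΛ (Or.inl (Set.mem_iUnion.2 ⟨(l, I), hz⟩))
  have mA : ∀ i, ∀ z ∈ coefsT (A i), z ∈ Λ := fun i z hz =>
    hΛ (Or.inr (Or.inl (Set.mem_iUnion.2 ⟨i, hz⟩)))
  have mB : ∀ i, ∀ z ∈ coefsT (B i), z ∈ Λ := fun i z hz =>
    hΛ (Or.inr (Or.inr (Or.inl (Set.mem_iUnion.2 ⟨i, hz⟩))))
  have mG : ∀ i, ∀ z ∈ coefsT (G i), z ∈ Λ := fun i z hz =>
    hΛ (Or.inr (Or.inr (Or.inr (Or.inl (Set.mem_iUnion.2 ⟨i, hz⟩)))))
  have mc : ∀ i, ∀ z ∈ coefs1 (c i), z ∈ Λ := fun i z hz =>
    hΛ (Or.inr (Or.inr (Or.inr (Or.inr (Or.inl (Set.mem_iUnion.2 ⟨i, hz⟩))))))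
  have mq : ∀ l i, ∀ z ∈ coefs1 (q l i), z ∈ Λ := fun l i z hz =>
    hΛ (Or.inr (Or.inr (Or.inr (Or.inr (Or.inr (Or.inl (Set.mem_iUnion.2 ⟨(l, i), hz⟩)))))))
  have mqi : ∀ l i, ((q l i).eval (ρ l))⁻¹ ∈ Λ := fun l i =>
    hΛ (Or.inr (Or.inr (Or.inr (Or.inr (Or.inr (Or.inr (Or.inl ⟨(l, i), rfl⟩)))))))
  -- lifts
  have lT : ∀ P : MvPolynomial (Fin (N + 1)) (Polynomial k), (∀ z ∈ coefsT P, z ∈ Λ) →
      ∃ P' : MvPolynomial (Fin (N + 1)) (Polynomial Λ),
        MvPolynomial.map (Polynomial.mapRingHom Λ.subtype) P' = P := by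
    intro P hP
    refine exists_mv _ _ fun u => ?_
    by_cases hu : P.coeff u = 0
    · exact ⟨0, by rw [hu, map_zero]⟩
    obtain ⟨p', hp'⟩ := exists_p1 Λ.subtype (P.coeff u) fun i => by
      by_cases hi : (P.coeff u).coeff i = 0
      · exact ⟨0, by rw [hi, map_zero]⟩
      · refine ⟨⟨_, hP _ ?_⟩, rfl⟩
        exact Set.mem_biUnion (Finset.mem_coe.2 (MvPolynomial.mem_support_iff.2 hu))
          ⟨i, Polynomial.mem_support_iff.2 hi, rfl⟩
    exact ⟨p', hp'⟩
  have l1 : ∀ p : Polynomial k, (∀ z ∈ coefs1 p, z ∈ Λ) →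
      ∃ p' : Polynomial Λ, p'.map Λ.subtype = p := by
    intro p hp
    refine exists_p1 _ _ fun i => ?_
    by_cases hi : p.coeff i = 0
    · exact ⟨0, by rw [hi, map_zero]⟩
    · exact ⟨⟨_, hp _ ⟨i, Polynomial.mem_support_iff.2 hi, rfl⟩⟩, rfl⟩
  choose G' hG' using fun i => lT (G i) (mG i)
  choose A' hA' using fun i => lT (A i) (mA i)
  choose B' hB' using fun i => lT (B i) (mB i)
  choose c' hc' using fun i => l1 (c i) (mc i)
  choose q' hq' using fun l i => l1 (q l i) (mq l i)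
  refine ⟨G', A', B', c', hG', hA', hB', hc', fun l r t hr => ⟨?_, ?_⟩⟩
  · intro F _ φ hφ I hI y hy0 hy
    by_contra hcon
    push Not at hcon
    apply hy0
    refine hWC' l ⟨I, hI⟩ Λ (m0 _ _)
      (fun b : κ ⊕ I => Sum.elim (fun i => spec r (G' i))
        (fun i : I => spec r (W0 (need l i) (A' i) (B' i))) b) ?_ F φ y ?_
    · rintro (i | i)
      · simp only [Sum.elim_inl]
        rw [map_spec (G' i) (G i) (hG' i), hr]
      · simp only [Sum.elim_inr]
        rw [map_spec (W0 (need l i) (A' i) (B' i))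
          (W0 (need l i) (A i) (B i)) (by rw [W0_map, hA', hB']), hr]
    · rintro (i | i)
      · simp only [Sum.elim_inl]
        rw [← eval₂_spec φ _ hφ]
        exact hy i
      · simp only [Sum.elim_inr]
        rw [← eval₂_spec φ _ hφ, W0_spec]
        by_contra h0
        obtain ⟨h1, h2⟩ := (W0_ne φ _ _ _ _).1 h0
        obtain ⟨h3, h4⟩ := hcon i i.2 h1
        exact h2 h3 h4
  · intro 𝔭 h𝔭 htr i
    refine ⟨(q' l i).eval t, fun hmem => ?_, ?_⟩
    · obtain ⟨z, hz⟩ := Polynomial.sub_dvd_eval_sub t r (q' l i)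
      have h1 : (q' l i).eval r ∈ 𝔭 := by
        have h2 : (q' l i).eval r = (q' l i).eval t - (t - r) * z := by
          rw [← hz, sub_sub_cancel]
        rw [h2]
        exact 𝔭.sub_mem hmem (𝔭.mul_mem_right _ htr)
      have h3 : (((q' l i).eval r : Λ) : k) = (q l i).eval (ρ l) := by
        rw [← hr, ← hq' l i, Polynomial.eval_map]
        exact (Polynomial.eval₂_at_apply Λ.subtype r).symm
      have h4 : IsUnit ((q' l i).eval r) := by
        refine IsUnit.of_mul_eq_one (⟨_, mqi l i⟩ : Λ) (Subtype.ext ?_)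
        change (((q' l i).eval r : Λ) : k) * ((q l i).eval (ρ l))⁻¹ = 1
        rw [h3]
        exact mul_inv_cancel₀ (hq2 l i)
      exact h𝔭.ne_top (Ideal.eq_top_of_isUnit_mem _ h1 h4)
    · apply Subtype.ext
      have h1 : (((c' i).eval t : Λ) : k) = (c i).eval (t : k) := by
        rw [← hc' i, Polynomial.eval_map]
        exact (Polynomial.eval₂_at_apply Λ.subtype t).symm
      have h2 : (((q' l i).eval t : Λ) : k) = (q l i).eval (t : k) := by
        rw [← hq' l i, Polynomial.eval_map]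
        exact (Polynomial.eval₂_at_apply Λ.subtype t).symm
      change (((c' i).eval t : Λ) : k) = (((q' l i).eval t : Λ) : k) * ((t : k) - (r : k)) ^ _
      rw [h1, h2, hr]
      have h3 := congrArg (Polynomial.eval (t : k)) (hq1 l i)
      rw [Polynomial.eval_mul, Polynomial.eval_pow, Polynomial.eval_sub, Polynomial.eval_X,
        Polynomial.eval_C] at h3
      rw [h3, mul_comm]

end near

/-- The conditions on the orders at the places. -/
def Cond {L n k : ℕ} (m τ : ℕ) (β : ℕ → ℕ) (e : Fin L → Fin n ⊕ Fin k → ℕ)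
    (e' : Fin L → Fin k → ℕ) : Prop :=
  IndPos 1 (fun l i => e l (Sum.inl i)) ∧
  (∀ i, (Finset.univ.filter fun l => e l (Sum.inl i) = 0).card ≤ τ) ∧
  Rigid m β fun l j => (e' l j : ℤ) - e l (Sum.inr j)

/-- The divisors are in general position at the parameter of a partial degeneration. -/
def PosAtM {K : Subfield ℂ} {N n k : ℕ} {κ : Type} (m : ℕ)
    (G : κ → MvPolynomial (Fin (N + 1)) (Polynomial K))
    (A B : Fin n ⊕ Fin k → MvPolynomial (Fin (N + 1)) (Polynomial K))
    (c : Fin n ⊕ Fin k → Polynomial K) (α : ℂ) : Prop :=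
  ∀ I : Finset (Fin n ⊕ Fin k), I.card = m + 1 → ∀ y : Fin (N + 1) → ℂ, y ≠ 0 →
    (∀ l, eval₂ (evalAt K α) y (G l) = 0) →
    ∃ i ∈ I, eval₂ (evalAt K α) y (B i) ≠ 0 ∧
      (0 < needs (fun i => order (c i) α) i → eval₂ (evalAt K α) y (A i) ≠ 0)

/-- The members with parameters in finitely generated fields and rings. -/
theorem fgMP (K : Subfield ℂ) [Countable K] (κ : Type) [Finite κ] (N n k₀ m M L : ℕ)
    (hL0 : 0 < L)
    (G : κ → MvPolynomial (Fin (N + 1)) (Polynomial K)) (hG : ∀ l, ∃ e, (G l).IsHomogeneous e)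
    (A B : Fin n ⊕ Fin k₀ → MvPolynomial (Fin (N + 1)) (Polynomial K)) (δ : Fin n ⊕ Fin k₀ → ℕ)
    (hA : ∀ i, (A i).IsHomogeneous (δ i)) (hB : ∀ i, (B i).IsHomogeneous (δ i))
    (c : Fin n ⊕ Fin k₀ → Polynomial K) (hc : ∀ i, c i ≠ 0)
    (c' : Fin k₀ → Polynomial K) (hc' : ∀ i, c' i ≠ 0) (D : Fin M → Finset ℂ)
    (hD : ∀ l, ∀ α ∈ D l, IsAlgebraic K α)
    (hind : ∀ (f : Fin L → Fin M) (α : Fin L → ℂ), Function.Injective f →
      (∀ l, α l ∈ D (f l)) → ∃ (τ : ℕ) (β : ℕ → ℕ),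
        (∀ s ≤ m + 1, β s + (m + 1 - s) * (τ + 1) + 1 ≤ L) ∧
        Cond m τ β (fun l i => order (c i) (α l)) (fun l j => order (c' j) (α l)))
    (hpos : ∀ l, ∀ α ∈ D l, PosAtM m G A B c α)
    (Γ : Finset ℂ) (hΓ : ∀ γ ∈ Γ, IsAlgebraic K γ) (F : Finset ℂ)
    (hF : ∀ z ∈ F, IsAlgebraic K z) :
    ((∀ I : Finset (Fin M), M + 1 ≤ I.card + L → 3 ≤ (I.biUnion D).card) →
      {t : ℂ | t ∈ Subfield.closure (F : Set ℂ) ∧
        ¬ NoAtypical (algebraMap (Algebra.adjoin ℤ (Γ : Set ℂ)) ℂ) K m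
          (image (evalAt K t) G A B c c')}.Finite) ∧
    ((∀ I : Finset (Fin M), M + 1 ≤ I.card + L → 2 ≤ (I.biUnion D).card) →
      {t : ℂ | t ∈ Subring.closure (F : Set ℂ) ∧
        ¬ NoAtypical (algebraMap (Algebra.adjoin ℤ (Γ : Set ℂ)) ℂ) K m
          (image (evalAt K t) G A B c c')}.Finite) := by
  classical
  let kk := algebraicClosure K ℂ
  have hcl : IsAlgClosure K kk := inferInstance
  have hac : IsAlgClosed kk := hcl.isAlgClosed
  have hc0k : CharZero kk := inferInstance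
  let φ : Polynomial K →+* Polynomial kk := Polynomial.mapRingHom (algebraMap K kk)
  have hφinj : Function.Injective φ := Polynomial.map_injective _ (algebraMap K kk).injective
  have hev : ∀ (t : kk), (algebraMap kk ℂ).comp ((Polynomial.evalRingHom t).comp φ) =
      evalAt K (algebraMap kk ℂ t) := by
    intro t
    refine Polynomial.ringHom_ext (fun a => ?_) ?_
    · simp only [φ, evalAt, RingHom.comp_apply, Polynomial.coe_mapRingHom, Polynomial.map_C,
        Polynomial.coe_evalRingHom, Polynomial.eval_C, AlgHom.toRingHom_eq_coe, RingHom.coe_coe,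
        Polynomial.aeval_C]
      rfl
    · simp only [φ, evalAt, RingHom.comp_apply, Polynomial.coe_mapRingHom, Polynomial.map_X,
        Polynomial.coe_evalRingHom, Polynomial.eval_X, AlgHom.toRingHom_eq_coe, RingHom.coe_coe,
        Polynomial.aeval_X]
  have hspec : ∀ (t : kk) (P : MvPolynomial (Fin (N + 1)) (Polynomial K)) (y : Fin (N + 1) → ℂ),
      aeval y (spec t (MvPolynomial.map φ P)) =
        eval₂ (evalAt K (algebraMap kk ℂ t)) y P := by
    intro t P y
    rw [spec, MvPolynomial.map_map, aeval_def, eval₂_map, hev]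
  have hmult0 : ∀ (α : kk) (p : Polynomial K), (φ p).rootMultiplicity α =
      order p (algebraMap kk ℂ α) := by
    intro α p
    have h1 := Polynomial.eq_rootMultiplicity_map (p := φ p) (f := algebraMap kk ℂ)
      (algebraMap kk ℂ).injective α
    rw [h1]
    simp only [φ, order, Polynomial.coe_mapRingHom, Polynomial.map_map]
    rfl
  -- all the functions of the parameter together
  let cc : (Fin n ⊕ Fin k₀) ⊕ Fin k₀ → Polynomial K := Sum.elim c c'
  have hcc : ∀ i, cc i ≠ 0 := by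
    rintro (i | j)
    · exact hc i
    · exact hc' j
  have hmult : ∀ (α : kk) (i : (Fin n ⊕ Fin k₀) ⊕ Fin k₀), (φ (cc i)).rootMultiplicity α =
      order (cc i) (algebraMap kk ℂ α) := fun α i => hmult0 α _
  -- finite sets of algebraic numbers
  have hlift : ∀ S : Finset ℂ, (∀ z ∈ S, IsAlgebraic K z) → ∃ S' : Finset kk,
      (∀ z : kk, z ∈ S' ↔ algebraMap kk ℂ z ∈ S) ∧
      algebraMap kk ℂ '' (S' : Set kk) = (S : Set ℂ) := by
    intro S hS
    have hmem : ∀ z ∈ S, z ∈ algebraicClosure K ℂ := fun z hz =>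
      mem_algebraicClosure_iff'.2 (hS z hz).isIntegral
    have h1 : ∀ z : kk, z ∈ (S.attach.image fun z => (⟨z.1, hmem z.1 z.2⟩ : kk)) ↔
        algebraMap kk ℂ z ∈ S := by
      intro z
      constructor
      · intro hz
        obtain ⟨w, _, hw⟩ := Finset.mem_image.1 hz
        rw [← hw]
        exact w.2
      · intro hz
        exact Finset.mem_image.2 ⟨⟨z.1, hz⟩, Finset.mem_attach _ _, rfl⟩
    refine ⟨S.attach.image fun z => ⟨z.1, hmem z.1 z.2⟩, h1, ?_⟩
    ext z
    constructor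
    · rintro ⟨w, hw, rfl⟩
      exact (h1 w).1 hw
    · intro hz
      exact ⟨⟨z, hmem z hz⟩, (h1 _).2 hz, rfl⟩
  obtain ⟨Γf, -, hΓf⟩ := hlift Γ hΓ
  let Γ' : Set kk := (Γf : Set kk)
  have hΓ' : algebraMap kk ℂ '' Γ' = (Γ : Set ℂ) := hΓf
  obtain ⟨F', -, hF'⟩ := hlift F hF
  choose D' hD' hD'im using fun l => hlift (D l) (hD l)
  have hcard : ∀ I : Finset (Fin M), (I.biUnion D').card = (I.biUnion D).card := by
    intro I
    rw [← Finset.card_image_of_injective (I.biUnion D') (algebraMap kk ℂ).injective]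
    congr 1
    ext z
    simp only [Finset.mem_image, Finset.mem_biUnion]
    constructor
    · rintro ⟨w, ⟨l, hl, hw⟩, rfl⟩
      exact ⟨l, hl, (hD' l w).1 hw⟩
    · rintro ⟨l, hl, hz⟩
      have h1 : z ∈ algebraMap kk ℂ '' (D' l : Set kk) := by
        rw [hD'im]
        exact hz
      obtain ⟨w, hw, hwz⟩ := h1
      exact ⟨w, ⟨l, hl, hw⟩, hwz⟩
  let Rt : Finset kk := Finset.univ.biUnion D'
  have hRt : ∀ α : kk, α ∈ Rt ↔ ∃ l, α ∈ D' l := by
    intro α
    simp only [Rt, Finset.mem_biUnion, Finset.mem_univ, true_and]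
  let ρt : Fin Rt.card → kk := fun l => (Rt.equivFin.symm l : kk)
  have hρ : ∀ α ∈ Rt, ∃ l, ρt l = α := by
    intro α hα
    refine ⟨Rt.equivFin ⟨α, hα⟩, ?_⟩
    simp [ρt]
  have hρ' : ∀ l, ρt l ∈ Rt := fun l => (Rt.equivFin.symm l).2
  have hc0 : ∀ i, φ (cc i) ≠ 0 := fun i => (map_ne_zero_iff φ hφinj).2 (hcc i)
  let nd : Fin Rt.card → Fin n ⊕ Fin k₀ → ℕ := fun l =>
    needs fun i => order (c i) (algebraMap kk ℂ (ρt l))
  obtain ⟨W₀, hW₀, hΓW₀, hρW₀, hnear⟩ := nearSM (k := kk) (m := m) (M := Rt.card)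
    (fun i => MvPolynomial.map φ (G i)) (fun i => MvPolynomial.map φ (A i))
    (fun i => MvPolynomial.map φ (B i)) (fun i => φ (cc i)) ρt nd hc0
    (fun l I hI y h1 h2 => by
      by_contra h0
      obtain ⟨l', hl'⟩ := (hRt _).1 (hρ' l)
      obtain ⟨i, hi, h3, h4⟩ := hpos l' _ ((hD' _ _).1 hl') I hI y h0 (fun i => by
        have h4 := h1 i
        rw [hspec] at h4
        exact h4)
      have h5 := h2 i hi
      rw [← W0_map, hspec] at h5
      exact (W0_ne _ _ _ _ _).2 ⟨h3, fun h6 => h4 h6⟩ h5)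
    Γ' (Set.toFinite _)
  let W : Finset kk := hW₀.toFinset
  have hW : (W : Set kk) = W₀ := Set.Finite.coe_toFinset hW₀
  -- the core
  have core : ∀ (t : kk), t ∉ Rt → (∃ f : Fin L → Fin M,
      Function.Injective f ∧ ∀ l, ∃ a ∈ D' (f l), ¬ Bad (W : Set kk) t a) →
      NoAtypical (algebraMap (Algebra.adjoin ℤ (Γ : Set ℂ)) ℂ) K m
        (image (evalAt K (algebraMap kk ℂ t)) G A B c c') := by
    rintro t htRt ⟨f, hf, hp⟩
    rw [hW] at hp
    choose α hα hbad using hp
    have hαRt : ∀ l, α l ∈ Rt := fun l => (hRt _).2 ⟨_, hα l⟩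
    have hαW : ∀ l, α l ∈ W₀ := by
      intro l
      obtain ⟨l', hl'⟩ := hρ _ (hαRt l)
      rw [← hl']
      exact hρW₀ l'
    have htα : ∀ l, t ≠ α l := by
      intro l h
      exact htRt (h ▸ hαRt l)
    choose 𝔭 h𝔭 hmem𝔭 using fun l => exists_max W₀ (hαW l) (htα l) (hbad l)
    obtain ⟨Λ, hΛ⟩ : ∃ Λ, Λ = Subring.closure (insert t W₀) := ⟨_, rfl⟩
    subst hΛ
    let Λ : Subring kk := Subring.closure (insert t W₀)
    have hWΛ : W₀ ⊆ (Λ : Set kk) := fun z hz => Subring.subset_closure (Set.mem_insert_of_mem _ hz)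
    let t' : Λ := ⟨t, Subring.subset_closure (Set.mem_insert _ _)⟩
    let r' : Fin L → Λ := fun l => ⟨α l, hWΛ (hαW l)⟩
    have hmem : ∀ l, t' - r' l ∈ 𝔭 l := fun l => hmem𝔭 l
    obtain ⟨G', A', B', cc', hG', hA', hB', hcc', hN⟩ := hnear Λ hWΛ
    have hsub : Function.Injective Λ.subtype := Subtype.val_injective
    have hsub1 : Function.Injective (Polynomial.mapRingHom Λ.subtype) :=
      Polynomial.map_injective _ hsub
    let i1 : Algebra Λ ℂ := ((algebraMap kk ℂ).comp Λ.subtype).toAlgebra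
    have hmapΛ : ∀ z : Λ, algebraMap Λ ℂ z = algebraMap kk ℂ (z : kk) := fun z => rfl
    have htower : IsScalarTower Λ kk ℂ := IsScalarTower.of_algebraMap_eq fun z => rfl
    have hinjC : Function.Injective (algebraMap Λ ℂ) := by
      intro a b h
      exact hsub ((algebraMap kk ℂ).injective h)
    -- values
    have hval : ∀ (P : MvPolynomial (Fin (N + 1)) (Polynomial K))
        (P' : MvPolynomial (Fin (N + 1)) (Polynomial Λ)),
        MvPolynomial.map (Polynomial.mapRingHom Λ.subtype) P' = MvPolynomial.map φ P →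
        ∀ y : Fin (N + 1) → ℂ, aeval y (spec t' P') =
          eval₂ (evalAt K (algebraMap kk ℂ t)) y P := by
      intro P P' hP y
      rw [← hspec t P y, ← hP]
      have h1 := map_spec P' _ rfl t'
      change _ = aeval y (spec (t' : kk) _)
      rw [← h1, aeval_def, aeval_def, eval₂_map]
      rfl
    have hcval : ∀ i, algebraMap Λ ℂ ((cc' i).eval t') = evalAt K (algebraMap kk ℂ t) (cc i) := by
      intro i
      have h1 : (((cc' i).eval t' : Λ) : kk) = (φ (cc i)).eval t := by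
        rw [← hcc' i, Polynomial.eval_map]
        exact (Polynomial.eval₂_at_apply Λ.subtype t').symm
      rw [hmapΛ, h1, ← hev t]
      rfl
    have hintΓ : ∀ z, (algebraMap (Algebra.adjoin ℤ (Γ : Set ℂ)) ℂ).IsIntegralElem z →
        IsIntegral Λ z := by
      intro z hz
      refine int_up hinjC (Γ : Set ℂ) (fun g hg => ?_) hz
      rw [← hΓ'] at hg
      obtain ⟨g', hg', rfl⟩ := hg
      exact ⟨⟨g', hWΛ (hΓW₀ hg')⟩, rfl⟩
    refine noAtypicalM_pt _ K _ (fun x hx => hx.1) ?_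
    rintro r Z Mu η hη x ⟨hx0, y, hy0, hyG, hxy, hxy2⟩ hxZ hxC S hS
    have hSk : AlgebraicIndependent kk (fun i : S => x i) := hS.extendScalars kk
    have hSΛ : AlgebraicIndependent Λ (fun i : S => x i) := hSk.restrictScalars hsub
    obtain ⟨τ, β, hL, hi1, hi2, hi3⟩ := hind f (fun l => algebraMap kk ℂ (α l)) hf
      (fun l => (hD' _ _).1 (hα l))
    refine criterionMP (Λ := Λ) (F := kk) (m := m) (L := L) β hL
      (fun i => spec t' (G' i)) ?_ (fun i => spec t' (A' i)) (fun i => spec t' (B' i)) δ ?_ ?_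
      (fun i => (cc' (Sum.inl i)).eval t') (fun j => (cc' (Sum.inr j)).eval t') 𝔭
      (fun l i => order (c i) (algebraMap kk ℂ (α l)))
      (fun l j => order (c' j) (algebraMap kk ℂ (α l)))
      ?_ h𝔭 (fun l => t' - r' l) hmem ?_ ?_ ?_ hi1 hi2 hi3 Z.cls
      (fun i => (Z.mat i).det.toNat) x Mu η ?_ ?_
      (fun i j l hi hj => by
        have h5 := rel_of_locus Z hxZ i j l hi hj
        rw [Int.toNat_mul (Z.det_pos i).le (Z.det_pos j).le] at h5
        exact h5) hx0 ?_ (fun j => (hη j).1) (fun j => hintΓ _ (hη j).2.1)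
      (fun j => hintΓ _ (hη j).2.2) hxC.2 y hy0 ?_ ?_ ?_ S hSΛ hSk
    · intro i
      obtain ⟨e, he⟩ := hG i
      exact ⟨e, (hom_lift _ (hG' i) hsub1 (he.map φ)).map _⟩
    · intro i
      exact (hom_lift _ (hA' i) hsub1 ((hA i).map φ)).map _
    · intro i
      exact (hom_lift _ (hB' i) hsub1 ((hB i).map φ)).map _
    · intro l F₁ _ φ₁ hker I hI y' hy0' hyG'
      obtain ⟨l', hl'⟩ := hρ _ (hαRt l)
      have h1 := hmem l
      rw [← hker, RingHom.mem_ker] at h1
      obtain ⟨i, hi, h2, h3⟩ := (hN l' (r' l) t' hl'.symm).1 F₁ φ₁ h1 I hI y' hy0' hyG'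
      refine ⟨i, hi, h2, fun h4 => h3 ?_⟩
      simp only [nd]
      rw [hl']
      exact h4
    · intro l h0
      apply htα l
      have h1 : (((t' - r' l : Λ) : kk)) = 0 := (map_eq_zero (algebraMap kk ℂ)).1 h0
      exact sub_eq_zero.1 h1
    · intro l i
      obtain ⟨l', hl'⟩ := hρ _ (hαRt l)
      obtain ⟨b, hb1, hb2⟩ := (hN l' (r' l) t' hl'.symm).2 (𝔭 l) (h𝔭 l) (hmem l) (Sum.inl i)
      refine ⟨1, b, fun h1 => (h𝔭 l).ne_top ((Ideal.eq_top_iff_one _).2 h1), hb1, ?_⟩
      rw [one_mul, hb2, hl', hmult]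
      rfl
    · intro l j
      obtain ⟨l', hl'⟩ := hρ _ (hαRt l)
      obtain ⟨b, hb1, hb2⟩ := (hN l' (r' l) t' hl'.symm).2 (𝔭 l) (h𝔭 l) (hmem l) (Sum.inr j)
      refine ⟨1, b, fun h1 => (h𝔭 l).ne_top ((Ideal.eq_top_iff_one _).2 h1), hb1, ?_⟩
      rw [one_mul, hb2, hl', hmult]
      rfl
    · intro i
      have := Z.det_pos i
      omega
    · intro i hi
      obtain ⟨z, hz⟩ := hxZ
      have e3 : x (Sum.inl i) = Z.const i := (hz i).1 hi
      rw [e3]
      rcases Z.allowed i with ⟨τ, hτ, hc⟩ | h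
      · rw [hc]
        exact (singular_modulus_integral τ hτ).tower_top
      · exact hintΓ _ h
    · intro j
      have h4 : IsIntegral kk (η j) := (hintΓ _ (hη j).2.1).tower_top
      have h5 : IsAlgebraic kk (η j) := h4.isAlgebraic
      have h6 : IsAlgebraic K (η j) := by
        have : Algebra.IsAlgebraic K kk := hcl.isAlgebraic
        exact h5.restrictScalars K
      exact ⟨⟨η j, mem_algebraicClosure_iff.2 h6⟩, rfl⟩
    · intro i
      rw [hval _ _ (hG' i)]
      exact hyG i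
    · intro i
      rw [hval _ _ (hA' _), hval _ _ (hB' _), hcval]
      exact hxy i
    · intro j
      rw [hval _ _ (hA' _), hval _ _ (hB' _), hcval, hcval]
      exact hxy2 j
  -- the parameters lie in the algebraic closure
  have hfield : ∀ t ∈ Subfield.closure (F : Set ℂ), ∃ t' : kk,
      t' ∈ Subfield.closure (F' : Set kk) ∧ algebraMap kk ℂ t' = t := by
    intro t ht
    rw [← hF', ← RingHom.map_field_closure] at ht
    exact Subfield.mem_map.1 ht
  have hring : ∀ t ∈ Subring.closure (F : Set ℂ), ∃ t' : kk,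
      t' ∈ Subring.closure (F' : Set kk) ∧ algebraMap kk ℂ t' = t := by
    intro t ht
    rw [← hF', ← RingHom.map_closure] at ht
    exact Subring.mem_map.1 ht
  let E : Set kk := {t | t ∉ Rt ∧
    ¬ NoAtypical (algebraMap (Algebra.adjoin ℤ (Γ : Set ℂ)) ℂ) K m
      (image (evalAt K (algebraMap kk ℂ t)) G A B c c')}
  have hLe : L - 1 + 1 = L := by omega
  refine ⟨fun hM => ?_, fun hM => ?_⟩
  · have h1 := finite_field (L := L - 1) W F' D'
      (fun I hI => (hcard I).symm ▸ hM I (by omega)) E (fun t ht h => ht.2 (core t ht.1 (hLe ▸ h)))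
    refine ((h1.union Rt.finite_toSet).image (algebraMap kk ℂ)).subset ?_
    rintro t ⟨ht, ht'⟩
    obtain ⟨t', ht1, rfl⟩ := hfield t ht
    by_cases h2 : t' ∈ Rt
    · exact ⟨t', Or.inr h2, rfl⟩
    · exact ⟨t', Or.inl ⟨ht1, h2, ht'⟩, rfl⟩
  · have h1 := finite_ring (L := L - 1) W F' D'
      (fun I hI => (hcard I).symm ▸ hM I (by omega)) E (fun t ht h => ht.2 (core t ht.1 (hLe ▸ h)))
    refine ((h1.union Rt.finite_toSet).image (algebraMap kk ℂ)).subset ?_
    rintro t ⟨ht, ht'⟩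
    obtain ⟨t', ht1, rfl⟩ := hring t ht
    by_cases h2 : t' ∈ Rt
    · exact ⟨t', Or.inr h2, rfl⟩
    · exact ⟨t', Or.inl ⟨ht1, h2, ht'⟩, rfl⟩

/-- The members with transcendental parameters. -/
theorem transMP (K : Subfield ℂ) (κ : Type) (N n k₀ m τ L : ℕ)
    (β : ℕ → ℕ) (hL : ∀ s ≤ m + 1, β s + (m + 1 - s) * (τ + 1) + 1 ≤ L)
    (G : κ → MvPolynomial (Fin (N + 1)) (Polynomial K)) (hG : ∀ l, ∃ e, (G l).IsHomogeneous e)
    (A B : Fin n ⊕ Fin k₀ → MvPolynomial (Fin (N + 1)) (Polynomial K)) (δ : Fin n ⊕ Fin k₀ → ℕ)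
    (hA : ∀ i, (A i).IsHomogeneous (δ i)) (hB : ∀ i, (B i).IsHomogeneous (δ i))
    (c : Fin n ⊕ Fin k₀ → Polynomial K) (hc : ∀ i, c i ≠ 0)
    (c' : Fin k₀ → Polynomial K) (hc' : ∀ i, c' i ≠ 0)
    (α : Fin L → ℂ) (hα : ∀ l, IsAlgebraic K (α l))
    (hind : Cond m τ β (fun l i => order (c i) (α l)) (fun l j => order (c' j) (α l)))
    (hpos : ∀ l, PosAtM m G A B c (α l))
    (Γ : Finset ℂ) (hΓ : ∀ γ ∈ Γ, IsAlgebraic K γ) (t : ℂ) (ht : Transcendental K t)
    (K' : Subfield ℂ) [Countable K'] (hKK' : K ≤ K') (htK' : t ∈ K') :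
    NoAtypical (algebraMap (Algebra.adjoin ℤ (Γ : Set ℂ)) ℂ) K' m
      (image (evalAt K t) G A B c c') := by
  classical
  let kk := algebraicClosure K ℂ
  have hcl : IsAlgClosure K kk := inferInstance
  have hac : IsAlgClosed kk := hcl.isAlgClosed
  have htk : Transcendental kk t := ht.extendScalars kk
  let φ : Polynomial K →+* Polynomial kk := Polynomial.mapRingHom (algebraMap K kk)
  have hφ : Function.Injective φ := Polynomial.map_injective _ (algebraMap K kk).injective
  let ev : Polynomial kk →+* ℂ := (Polynomial.aeval t : Polynomial kk →ₐ[kk] ℂ).toRingHom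
  let i1 : Algebra (Polynomial kk) ℂ := ev.toAlgebra
  have hinj : Function.Injective (algebraMap (Polynomial kk) ℂ) :=
    transcendental_iff_injective.1 htk
  have hevφ : ∀ c : Polynomial K, algebraMap (Polynomial kk) ℂ (φ c) = evalAt K t c := by
    intro c
    change Polynomial.aeval t ((c.map (algebraMap K kk))) = Polynomial.aeval t c
    rw [Polynomial.aeval_map_algebraMap]
  have hevφ' : (algebraMap (Polynomial kk) ℂ).comp φ = evalAt K t := RingHom.ext hevφ
  have hmem : ∀ z : ℂ, IsAlgebraic K z → ∃ z' : kk, algebraMap kk ℂ z' = z := fun z hz =>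
    ⟨⟨z, mem_algebraicClosure_iff'.2 hz.isIntegral⟩, rfl⟩
  choose α' hα' using fun l => hmem (α l) (hα l)
  have hmult : ∀ l (c : Polynomial K), (φ c).rootMultiplicity (α' l) = order c (α l) := by
    intro l c
    have h1 := Polynomial.eq_rootMultiplicity_map (p := φ c) (f := algebraMap kk ℂ)
      (algebraMap kk ℂ).injective (α' l)
    rw [h1, hα']
    simp only [φ, order, Polynomial.coe_mapRingHom, Polynomial.map_map]
    rfl
  have hintΓ : ∀ z, (algebraMap (Algebra.adjoin ℤ (Γ : Set ℂ)) ℂ).IsIntegralElem z →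
      IsIntegral (Polynomial kk) z := by
    intro z hz
    refine int_up hinj (Γ : Set ℂ) (fun g hg => ?_) hz
    obtain ⟨g', hg'⟩ := hmem g (hΓ g hg)
    refine ⟨Polynomial.C g', ?_⟩
    change Polynomial.aeval t (Polynomial.C g') = g
    rw [Polynomial.aeval_C, hg']
  -- the polynomials in the parameter as elements of the closure of `K'`
  let k' := algebraicClosure K' ℂ
  have hev' : ∀ a : Polynomial kk, ev a ∈ k'.toSubfield := by
    intro a
    change Polynomial.aeval t a ∈ k'.toSubfield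
    rw [Polynomial.aeval_eq_sum_range]
    refine sum_mem fun i _ => ?_
    rw [Algebra.smul_def]
    refine mul_mem ?_ (pow_mem ?_ i)
    · have h1 : IsAlgebraic K ((algebraMap kk ℂ) (a.coeff i)) :=
        (Algebra.IsAlgebraic.isAlgebraic (R := K) (a.coeff i)).algebraMap
      let i2 : Algebra K K' := (Subfield.inclusion hKK').toAlgebra
      have hst : IsScalarTower K K' ℂ := IsScalarTower.of_algebraMap_eq fun _ => rfl
      have h2 : IsAlgebraic K' ((algebraMap kk ℂ) (a.coeff i)) := h1.tower_top K'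
      exact mem_algebraicClosure_iff'.2 h2.isIntegral
    · exact mem_algebraicClosure_iff'.2 (isIntegral_algebraMap (R := K') (x := ⟨t, htK'⟩))
  let fΛ : Polynomial kk →+* k' := ev.codRestrict k'.toSubfield hev'
  let i3 : Algebra (Polynomial kk) k' := fΛ.toAlgebra
  have hst3 : IsScalarTower (Polynomial kk) k' ℂ := IsScalarTower.of_algebraMap_eq fun _ => rfl
  have hinj3 : Function.Injective (algebraMap (Polynomial kk) k') := by
    intro a b h
    apply hinj
    exact congrArg (algebraMap k' ℂ) h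
  -- the reduction
  let red : ∀ l, Polynomial kk →+* ℂ := fun l => (algebraMap kk ℂ).comp
    (Polynomial.evalRingHom (α' l))
  have hredφ : ∀ l, (red l).comp φ = evalAt K (α l) := by
    intro l
    refine Polynomial.ringHom_ext (fun a => ?_) ?_
    · simp only [red, φ, evalAt, RingHom.comp_apply, Polynomial.coe_mapRingHom, Polynomial.map_C,
        Polynomial.coe_evalRingHom, Polynomial.eval_C, AlgHom.toRingHom_eq_coe, RingHom.coe_coe,
        Polynomial.aeval_C]
      rfl
    · simp only [red, φ, evalAt, RingHom.comp_apply, Polynomial.coe_mapRingHom, Polynomial.map_X,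
        Polynomial.coe_evalRingHom, Polynomial.eval_X, AlgHom.toRingHom_eq_coe, RingHom.coe_coe,
        Polynomial.aeval_X]
      exact hα' l
  have hredv : ∀ l (P : MvPolynomial (Fin (N + 1)) (Polynomial K)) (y : Fin (N + 1) → ℂ),
      eval₂ (red l) y (MvPolynomial.map φ P) = eval₂ (evalAt K (α l)) y P := by
    intro l P y
    rw [eval₂_map, hredφ]
  refine noAtypicalM_pt _ K' _ (fun x hx => hx.1) ?_
  rintro r Z Mu η hη x ⟨hx0, y, hy0, hyG, hxy, hxy2⟩ hxZ hxC S hS
  have hSk : AlgebraicIndependent k' (fun i : S => x i) := hS.extendScalars k'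
  have hSΛ : AlgebraicIndependent (Polynomial kk) (fun i : S => x i) :=
    hSk.restrictScalars hinj3
  have hval : ∀ (P : MvPolynomial (Fin (N + 1)) (Polynomial K)) (y : Fin (N + 1) → ℂ),
      aeval y (MvPolynomial.map φ P) = eval₂ (evalAt K t) y P := by
    intro P y
    rw [aeval_def, eval₂_map, hevφ']
  have hfac : ∀ (l : Fin L) (p : Polynomial K), p ≠ 0 → ∃ a b : Polynomial kk,
      a ∉ RingHom.ker (red l) ∧ b ∉ RingHom.ker (red l) ∧
      a * φ p = b * (Polynomial.X - Polynomial.C (α' l)) ^ order p (α l) := by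
    intro l p hp
    obtain ⟨b, hb1, hb2⟩ := Polynomial.exists_eq_pow_rootMultiplicity_mul_and_not_dvd
      (φ p) ((map_ne_zero_iff φ hφ).2 hp) (α' l)
    refine ⟨1, b, fun h3 => ?_, fun h3 => ?_, ?_⟩
    · rw [RingHom.mem_ker, map_one] at h3
      exact one_ne_zero h3
    · apply hb2
      rw [Polynomial.dvd_iff_isRoot]
      rw [RingHom.mem_ker] at h3
      exact (map_eq_zero (algebraMap kk ℂ)).1 h3
    · rw [hmult] at hb1
      rw [one_mul, hb1, mul_comm]
  refine criterionMP (Λ := Polynomial kk) (F := k') (m := m) (L := L) β hL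
    (fun i => MvPolynomial.map φ (G i)) (fun i => by
      obtain ⟨e, he⟩ := hG i
      exact ⟨e, he.map φ⟩) (fun i => MvPolynomial.map φ (A i)) (fun i => MvPolynomial.map φ (B i)) δ
    (fun i => (hA i).map φ) (fun i => (hB i).map φ)
    (fun i => φ (c i)) (fun j => φ (c' j)) (fun l => RingHom.ker (red l))
    (fun l i => order (c i) (α l)) (fun l j => order (c' j) (α l)) ?_
    (fun l => RingHom.ker_isPrime _)
    (fun l => Polynomial.X - Polynomial.C (α' l)) ?_ ?_ (fun l i => hfac l _ (hc i))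
    (fun l j => hfac l _ (hc' j)) hind.1 hind.2.1 hind.2.2 Z.cls
    (fun i => (Z.mat i).det.toNat) x Mu η ?_ ?_
    (fun i j l hi hj => by
      have h5 := rel_of_locus Z hxZ i j l hi hj
      rw [Int.toNat_mul (Z.det_pos i).le (Z.det_pos j).le] at h5
      exact h5) hx0 ?_ (fun j => (hη j).1) (fun j => hintΓ _ (hη j).2.1)
      (fun j => hintΓ _ (hη j).2.2) hxC.2 y hy0 ?_ ?_ ?_ S hSΛ hSk
  · intro l F _ φ₁ hker I hI y' hy0' hyG'
    refine general_transferM (m := m) _ _ _ (needs fun i => order (c i) (α l)) (red l) ?_ F φ₁ hker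
      I hI y' hy0' hyG'
    intro I' hI' y'' hy'' hG''
    simp only [hredv] at hG'' ⊢
    exact hpos l I' hI' y'' hy'' hG''
  · intro l
    rw [RingHom.mem_ker]
    simp only [red, RingHom.comp_apply, Polynomial.coe_evalRingHom, Polynomial.eval_sub,
      Polynomial.eval_X, Polynomial.eval_C, sub_self, map_zero]
  · intro l h0
    exact Polynomial.X_sub_C_ne_zero (α' l) (hinj (h0.trans (map_zero _).symm))
  · intro i
    have := Z.det_pos i
    omega
  · intro i hi
    obtain ⟨z, hz⟩ := hxZ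
    have e3 : x (Sum.inl i) = Z.const i := (hz i).1 hi
    rw [e3]
    rcases Z.allowed i with ⟨τ, hτ, hc⟩ | h
    · rw [hc]
      exact (singular_modulus_integral τ hτ).tower_top
    · exact hintΓ _ h
  · intro j
    have h4 : IsAlgebraic (Polynomial kk) (η j) := (hintΓ _ (hη j).2.1).isAlgebraic
    have h5 : IsAlgebraic k' (η j) := h4.extendScalars hinj3
    have h6 : IsAlgebraic K' (η j) := by
      have : Algebra.IsAlgebraic K' k' := (inferInstance : IsAlgClosure K' k').isAlgebraic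
      exact h5.restrictScalars K'
    exact ⟨⟨η j, mem_algebraicClosure_iff.2 h6⟩, rfl⟩
  · intro i
    rw [hval]
    exact hyG i
  · intro i
    rw [hval, hval, hevφ]
    exact hxy i
  · intro j
    rw [hval, hval, hevφ, hevφ]
    exact hxy2 j

end Pool.Agent.Q209.MP
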