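import Pool.Agent.Q209.MP.FG
import Pool.Agent.Q170.PD.Multi
import Pool.Agent.Y152.RP.PlaceM

/-!
Families with several parameters of subsets of `Y(1)^n × G_m^k` some of whose coordinates degenerate
along hypersurfaces: the members with integral parameters (helper file; adapted from
`Pool.Agent.Q170.PD.Multi`).
-/

set_option autoImplicit false

namespace Pool.Agent.Q209.MP

open Pool.Agent
open H294ZP UpperHalfPlane MvPolynomial Pool.Agent.W282.ZP Pool.Agent.Y152.BD Pool.Agent.TH526.ZL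
open Pool.Agent.W466.ZC (aeval_mem)
open Pool.Agent.Y152.RP.FamM (SpecialVariety SpecialVariety.locus coset NoAtypical rel_of_locus)
open Pool.Agent.Q170.ZP.Multi (evM evM_apply evM_int ev_smul v_int_one v_int_lt aeval_int)
open Pool.Agent.Q170.BX (unitP)
open Pool.Agent.Q170.PD (goodW)

section near

variable {K : Type} [Field K] [Algebra K ℂ] {k : Type} [Field k] [Algebra k ℂ] [Algebra K k]
  [IsScalarTower K k ℂ] {r : ℕ}

/-- The data at the places near to the degenerate members. -/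
theorem nearDM [IsAlgClosed k] {κ : Type} [Finite κ] {N n k₀ m : ℕ}
    (G : κ → MvPolynomial (Fin (N + 1)) (MvPolynomial (Fin r) K))
    (hG : ∀ i, ∃ e, (G i).IsHomogeneous e)
    (A B : Fin n ⊕ Fin k₀ → MvPolynomial (Fin (N + 1)) (MvPolynomial (Fin r) K))
    (d : Fin n ⊕ Fin k₀ → ℕ)
    (hA : ∀ i, (A i).IsHomogeneous (d i)) (hB : ∀ i, (B i).IsHomogeneous (d i))
    (c : Fin n ⊕ Fin k₀ → MvPolynomial (Fin r) K) (c' : Fin k₀ → MvPolynomial (Fin r) K)
    (D E : MvPolynomial (Fin r) ℤ) (b : Fin n ⊕ Fin k₀ → MvPolynomial (Fin r) K)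
    (b' : Fin k₀ → MvPolynomial (Fin r) K)
    (e : Fin n ⊕ Fin k₀ → ℕ) (e' : Fin k₀ → ℕ)
    (hc : ∀ i, c i = MvPolynomial.map (Int.castRingHom K) D ^ e i * b i)
    (hc' : ∀ j, c' j = MvPolynomial.map (Int.castRingHom K) D ^ e' j * b' j)
    (hdis : ∀ (t : Fin r → ℂ), aeval t D = 0 → aeval t E ≠ 0 →
      (∀ I : Finset (Fin n ⊕ Fin k₀), I.card = m + 1 → ∀ y : Fin (N + 1) → ℂ, y ≠ 0 →
      (∀ i, eval₂ (evM K t) y (G i) = 0) →
      ∃ i ∈ I, eval₂ (evM K t) y (B i) ≠ 0 ∧ (0 < needs e i → eval₂ (evM K t) y (A i) ≠ 0)) ∧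
      (∀ i, evM K t (b i) ≠ 0) ∧ ∀ j, evM K t (b' j) ≠ 0) :
    ∃ W : Set k, W.Finite ∧ ∀ V : ValuationSubring ℂ, (∀ z ∈ W, algebraMap k ℂ z ∈ V) →
      ∀ t : Fin r → ℂ, (∀ j, t j ∈ V) → V.valuation (aeval t D) < 1 → aeval t D ≠ 0 →
      V.valuation (aeval t E) = 1 →
      ∀ (x : Fin n ⊕ Fin k₀ → ℂ) (y : Fin (N + 1) → ℂ), y ≠ 0 →
      (∀ i, eval₂ (evM K t) y (G i) = 0) →
      (∀ i, evM K t (c (Sum.inl i)) * eval₂ (evM K t) y (B (Sum.inl i)) * x (Sum.inl i) =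
        eval₂ (evM K t) y (A (Sum.inl i))) →
      (∀ j, evM K t (c (Sum.inr j)) * eval₂ (evM K t) y (B (Sum.inr j)) * x (Sum.inr j) =
        evM K t (c' j) * eval₂ (evM K t) y (A (Sum.inr j))) →
      ∃ E' : Finset (Fin n ⊕ Fin k₀), E'.card ≤ m ∧
      (∀ i, Sum.inl i ∉ E' →
        (0 < e (Sum.inl i) →
          V.valuation (x (Sum.inl i)) * V.valuation (aeval t D) ^ e (Sum.inl i) = 1) ∧
        (e (Sum.inl i) = 0 → V.valuation (x (Sum.inl i)) ≤ 1)) ∧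
      ∀ j, Sum.inr j ∉ E' → V.valuation (x (Sum.inr j)) =
        V.valuation (aeval t D) ^ ((e' j : ℤ) - e (Sum.inr j)) := by
  classical
  obtain ⟨W1, hW1, h1⟩ := goodW (k := k) (m := m) G hG
    (fun i => if 0 < needs e i then A i * B i else B i)
    (fun i : (Fin n ⊕ Fin k₀) ⊕ (Fin n ⊕ Fin k₀) => Sum.elim A B i) D E
    (fun t hD hE I hI y hyG hyF => by
      by_contra hy0
      obtain ⟨i, hi, h2, h3⟩ := (hdis t hD hE).1 I hI y hy0 hyG
      have h4 := hyF i hi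
      by_cases h0 : 0 < needs e i
      · rw [if_pos h0, eval₂_mul] at h4
        exact mul_ne_zero (h3 h0) h2 h4
      · rw [if_neg h0] at h4
        exact h2 h4)
  have h2 := fun i => unitP (k := k) D E (b i) (fun t hD hE => (hdis t hD hE).2.1 i)
  choose Wu hWu hu using h2
  have h3 := fun j => unitP (k := k) D E (b' j) (fun t hD hE => (hdis t hD hE).2.2 j)
  choose Wv hWv hv using h3
  refine ⟨W1 ∪ ((⋃ i, Wu i) ∪ ⋃ j, Wv j), hW1.union ((Set.finite_iUnion fun i => hWu i).union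
    (Set.finite_iUnion fun j => hWv j)), ?_⟩
  intro V hV t htV hDl hD0 hEl x y hy0 hyG hxy hxy2
  obtain ⟨a, ha0, hAB, hI⟩ := h1 V (fun z hz => hV z (Or.inl hz)) t htV hDl hEl y hy0 hyG
  refine bad_setM V e e' (fun i => eval₂ (evM K t) (a • y) (A i))
    (fun i => eval₂ (evM K t) (a • y) (B i)) (fun i => evM K t (c i)) x
    (fun j => evM K t (c' j)) _ ((Valuation.ne_zero_iff _).2 hD0)
    (fun i => (ValuationSubring.valuation_le_one_iff _ _).2 (hAB (Sum.inl i)))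
    (fun i => (ValuationSubring.valuation_le_one_iff _ _).2 (hAB (Sum.inr i))) (fun I hIc => ?_)
    (fun i => ?_) (fun j => ?_) (fun i => ?_) (fun j => ?_)
  · obtain ⟨i, hi, h1⟩ := hI I hIc
    refine ⟨i, hi, ?_⟩
    by_cases h0 : 0 < needs e i
    · rw [if_pos h0, eval₂_mul] at h1
      rw [if_pos h0]
      exact h1
    · rw [if_neg h0] at h1 ⊢
      exact h1
  · rw [hc i, map_mul, map_pow, evM_int, map_mul, map_pow,
      hu i V (fun z hz => hV z (Or.inr (Or.inl (Set.mem_iUnion.2 ⟨i, hz⟩)))) t htV hDl hEl, mul_one]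
  · rw [hc' j, map_mul, map_pow, evM_int, map_mul, map_pow,
      hv j V (fun z hz => hV z (Or.inr (Or.inr (Set.mem_iUnion.2 ⟨j, hz⟩)))) t htV hDl hEl, mul_one]
  · show evM K t (c (Sum.inl i)) * eval₂ (evM K t) (a • y) (B (Sum.inl i)) * x (Sum.inl i) =
      eval₂ (evM K t) (a • y) (A (Sum.inl i))
    rw [ev_smul t (hA _), ev_smul t (hB _), ← hxy i]
    ring
  · show evM K t (c (Sum.inr j)) * eval₂ (evM K t) (a • y) (B (Sum.inr j)) * x (Sum.inr j) =
      evM K t (c' j) * eval₂ (evM K t) (a • y) (A (Sum.inr j))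
    rw [ev_smul t (hA _), ev_smul t (hB _)]
    linear_combination a ^ d (Sum.inr j) * hxy2 j

end near

/-- Above almost every prime there is a valuation ring of `ℂ` containing given elements of `k`, in which
given numbers algebraically independent over `k` are units. -/
theorem exists_val1 {k : Type} [Field k] [Algebra k ℂ] [CharZero k] {ι : Type*} [Finite ι]
    (t : ι → k) : ∃ D : ℕ, ∀ p : ℕ, p.Prime → D < p → ∀ (ρ : Type) (x : ρ → ℂ),
      AlgebraicIndependent k x → ∃ V : ValuationSubring ℂ,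
        V.valuation ((p : ℕ) : ℂ) < 1 ∧ (∀ i, algebraMap k ℂ (t i) ∈ V) ∧
        ∀ j, V.valuation (x j) = 1 := by
  obtain ⟨D, hD⟩ := Pool.Agent.Y152.RP.exists_valU (k := k) t
  refine ⟨D, fun p hp hpD ρ x hx => ?_⟩
  obtain ⟨V, h1, h2, h3⟩ := hD p hp hpD 0 Polynomial.X Polynomial.irreducible_X
    (by simp) (p : ℚ) (by
      rw [Rat.den_natCast]
      exact hp.one_lt.ne' ∘ Nat.dvd_one.1) (by
      simp [Nv, Polynomial.natDegree_X, Finset.sum_range_succ]) ρ x hx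
  refine ⟨V, ?_, h2, h3⟩
  rw [zero_sub, Valuation.map_neg] at h1
  exact_mod_cast h1

/-- Families with several parameters: the members with integral parameters which are near to all the
hypersurfaces at suitable primes. -/
theorem multiMP (K : Subfield ℂ) [Countable K] (κ : Type) [Finite κ] (r N n k₀ m τ L : ℕ)
    (β : ℕ → ℕ) (hL : ∀ s ≤ m + 1, β s + (m + 1 - s) * (τ + 1) + 1 ≤ L)
    (G : κ → MvPolynomial (Fin (N + 1)) (MvPolynomial (Fin r) K))
    (hG : ∀ k, ∃ e, (G k).IsHomogeneous e)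
    (A B : Fin n ⊕ Fin k₀ → MvPolynomial (Fin (N + 1)) (MvPolynomial (Fin r) K))
    (δ : Fin n ⊕ Fin k₀ → ℕ)
    (hA : ∀ i, (A i).IsHomogeneous (δ i)) (hB : ∀ i, (B i).IsHomogeneous (δ i))
    (c : Fin n ⊕ Fin k₀ → MvPolynomial (Fin r) K) (c' : Fin k₀ → MvPolynomial (Fin r) K)
    (D E : Fin L → MvPolynomial (Fin r) ℤ) (b : Fin L → Fin n ⊕ Fin k₀ → MvPolynomial (Fin r) K)
    (b' : Fin L → Fin k₀ → MvPolynomial (Fin r) K)
    (e : Fin L → Fin n ⊕ Fin k₀ → ℕ) (e' : Fin L → Fin k₀ → ℕ) (hind : Cond m τ β e e')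
    (hc : ∀ l i, c i = MvPolynomial.map (Int.castRingHom K) (D l) ^ e l i * b l i)
    (hc' : ∀ l j, c' j = MvPolynomial.map (Int.castRingHom K) (D l) ^ e' l j * b' l j)
    (hpos : ∀ l (t : Fin r → ℂ), aeval t (D l) = 0 → aeval t (E l) ≠ 0 →
      (∀ I : Finset (Fin n ⊕ Fin k₀), I.card = m + 1 → ∀ y : Fin (N + 1) → ℂ, y ≠ 0 →
        (∀ i, eval₂ (evM K t) y (G i) = 0) →
        ∃ i ∈ I, eval₂ (evM K t) y (B i) ≠ 0 ∧
          (0 < needs (e l) i → eval₂ (evM K t) y (A i) ≠ 0)) ∧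
      (∀ i, evM K t (b l i) ≠ 0) ∧ ∀ j, evM K t (b' l j) ≠ 0) (Γ : Finset ℂ)
    (hΓ : ∀ γ ∈ Γ, γ ∈ K) :
    ∃ Q : ℕ, ∀ t : Fin r → ℤ,
      (∀ l, eval t (D l) ≠ 0 ∧
        ∃ p : ℕ, p.Prime ∧ Q < p ∧ (p : ℤ) ∣ eval t (D l) ∧ ¬ (p : ℤ) ∣ eval t (E l)) →
      NoAtypical (algebraMap (Algebra.adjoin ℤ (Γ : Set ℂ)) ℂ) K m
        (image (evM K fun j => (t j : ℂ)) G A B c c') := by
  classical
  let k := algebraicClosure K ℂ
  have hcl : IsAlgClosure K k := inferInstance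
  have hac : IsAlgClosed k := hcl.isAlgClosed
  let Γ' : Set k := (fun γ : Γ => algebraMap K k ⟨γ, hΓ γ γ.2⟩) '' Set.univ
  have hΓ' : algebraMap k ℂ '' Γ' = (Γ : Set ℂ) := by
    ext z
    constructor
    · rintro ⟨_, ⟨g, -, rfl⟩, rfl⟩
      exact g.2
    · intro hz
      exact ⟨_, ⟨⟨z, hz⟩, trivial, rfl⟩, rfl⟩
  choose Wl hWl hnear using fun l => nearDM (K := K) (k := k) (m := m) G hG A B δ hA hB c c'
    (D l) (E l) (b l) (b' l) (e l) (e' l) (hc l) (hc' l) (hpos l)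
  let W : Set k := (⋃ l, Wl l) ∪ Γ'
  have hW : W.Finite := (Set.finite_iUnion fun l => hWl l).union (Set.toFinite _)
  have := hW.to_subtype
  obtain ⟨Q, hQ⟩ := exists_val1 (fun z : W => (z : k))
  refine ⟨Q, fun t ht => noAtypicalM_pt _ K _ (fun x hx => hx.1) ?_⟩
  obtain ⟨tc, htc⟩ : ∃ tc : Fin r → ℂ, tc = fun j => (t j : ℂ) := ⟨_, rfl⟩
  rw [← htc]
  rintro r' Z Mu η hη x ⟨hx0, y, hy0, hyG, hxy, hxy2⟩ hxZ hxC S hS
  have hevD : ∀ P : MvPolynomial (Fin r) ℤ, aeval tc P = ((eval t P : ℤ) : ℂ) := fun P => by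
    rw [htc, aeval_int]
  have hSk : AlgebraicIndependent k (fun i : S => x i) := hS.extendScalars k
  choose ht0 p hp hpQ hpD hpE using ht
  choose V hV1 hVW hVx using fun l => hQ (p l) (hp l) (hpQ l) _ _ hSk
  have hVp : ∀ l, (V l).valuation ((p l : ℕ) : ℂ) < 1 := hV1
  have hVD : ∀ l, (V l).valuation (aeval tc (D l)) < 1 := fun l => by
    rw [hevD]
    exact v_int_lt (hVp l) (hpD l)
  have hD0 : ∀ l, aeval tc (D l) ≠ 0 := fun l => by
    rw [hevD]
    exact_mod_cast ht0 l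
  have hVE : ∀ l, (V l).valuation (aeval tc (E l)) = 1 := fun l => by
    rw [hevD]
    exact v_int_one (hp l) (hVp l) (hpE l)
  have htV : ∀ l j, tc j ∈ V l := fun l j => by
    rw [htc]
    exact intCast_mem _ _
  have hVW' : ∀ l, ∀ z ∈ W, algebraMap k ℂ z ∈ V l := fun l z hz => hVW l ⟨z, hz⟩
  have hΓV : ∀ l, ∀ z ∈ Γ', algebraMap k ℂ z ∈ V l := fun l z hz => hVW' l z (Or.inr hz)
  have hηint : ∀ j, IsIntegral (Algebra.adjoin ℤ (algebraMap k ℂ '' Γ')) (η j) ∧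
      IsIntegral (Algebra.adjoin ℤ (algebraMap k ℂ '' Γ')) (η j)⁻¹ := by
    intro j
    rw [hΓ']
    exact ⟨(hη j).2.1, (hη j).2.2⟩
  have h1 : ∀ i, Z.cls i = none →
      IsIntegral (Algebra.adjoin ℤ (algebraMap k ℂ '' Γ')) (x (Sum.inl i)) := by
    intro i hi
    obtain ⟨z, hz⟩ := hxZ
    have e3 : x (Sum.inl i) = Z.const i := (hz i).1 hi
    rw [hΓ', e3]
    rcases Z.allowed i with ⟨τ, hτ, hc⟩ | h
    · rw [hc]
      exact (singular_modulus_integral τ hτ).tower_top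
    · exact h
  refine coreMP (Λ := k) (F := k) (m := m) β hL (fun l i => e l (Sum.inl i)) hind.1 hind.2.1
    (fun l j => (e' l j : ℤ) - e l (Sum.inr j)) hind.2.2
    Z.cls (fun i => (Z.mat i).det.toNat) x Mu η
    (fun i => by
      have := Z.det_pos i
      omega)
    (fun i hi => alg_of_int Γ' (h1 i hi)) ?_ hx0 (fun j => ?_) hxC.2
    S hSk hSk V
    (fun l => (V l).valuation (aeval tc (D l))) (fun l => (Valuation.ne_zero_iff _).2 (hD0 l)) hVD
    (fun l i hi => v_le_of_int Γ' (V l) (hΓV l) (h1 i hi)) hVx (fun l j => ?_)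
    (fun l => hnear l (V l) (fun z hz => hVW' l z (Or.inl (Set.mem_iUnion.2 ⟨l, hz⟩))) tc (htV l)
      (hVD l) (hD0 l) (hVE l) x y hy0 hyG hxy hxy2)
  · intro i j l hi hj
    have h5 := rel_of_locus Z hxZ i j l hi hj
    rw [Int.toNat_mul (Z.det_pos i).le (Z.det_pos j).le] at h5
    exact h5
  · have h5 : IsAlgebraic k (η j) := alg_of_int Γ' (hηint j).1
    have h6 : IsAlgebraic K (η j) := by
      have : Algebra.IsAlgebraic K k := hcl.isAlgebraic
      exact h5.restrictScalars K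
    exact ⟨⟨η j, mem_algebraicClosure_iff.2 h6⟩, rfl⟩
  · refine le_antisymm (v_le_of_int Γ' (V l) (hΓV l) (hηint j).1) ?_
    have h5 := v_le_of_int Γ' (V l) (hΓV l) (hηint j).2
    rw [map_inv₀] at h5
    have h6 : (V l).valuation (η j) ≠ 0 := (Valuation.ne_zero_iff _).2 (hη j).1
    exact (inv_le_one₀ (zero_lt_iff.2 h6)).1 h5

end Pool.Agent.Q209.MP
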