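import Pool.Agent.Q170.RG.Dual
import Pool.Agent.Q170.PD.Core
import Pool.Agent.Q170.ZP.MixCore

/-!
The combinatorial core in products of modular curves and tori for partial degenerations: at every place
only some of the modular coordinates tend to the cusp, and the torus coordinates have arbitrary orders
(helper file; it combines `Pool.Agent.Q170.RG.coreMR` and `Pool.Agent.Q170.PD.coreP`).
-/

set_option autoImplicit false

open Function UpperHalfPlane H294ZP MvPolynomial Pool.Agent.W466.ZC Pool.Agent.TH526.ZL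

namespace Pool.Agent.Q209.MP

open Pool.Agent
open Pool.Agent.Q170.ZP (Smo Sq)
open Pool.Agent.Q170.PD (IndPos Spread no_relP spread_of_few)
open Pool.Agent.Q170.RG (orth finrank_orth exists_vec)

/-- The vectors `d_1, …, d_L` in `ℤ^k` are rigid with the bounds `β` (up to `m`): for `s ≤ m + 1` no
linear subspace of codimension `s` (or larger) is at a Hamming distance smaller than `s` from more than
`β s` of the vectors. -/
def Rigid {L k : ℕ} (m : ℕ) (β : ℕ → ℕ) (d : Fin L → Fin k → ℤ) : Prop :=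
  ∀ (s : ℕ) (B : Submodule ℚ (Fin k → ℚ)), s ≤ m + 1 → Module.finrank ℚ B + s ≤ k →
    ∀ F : Finset (Fin L), (∀ l ∈ F, ∃ v ∈ B, hammingDist v (fun j => (d l j : ℚ)) < s) →
      F.card ≤ β s

theorem Rigid.comp {L M k m : ℕ} {β : ℕ → ℕ} {c : Fin M → Fin k → ℤ} (h : Rigid m β c)
    (f : Fin L → Fin M) (hf : Function.Injective f) : Rigid m β fun l j => c (f l) j := by
  intro s B hs hB F hF
  have h1 := h s B hs hB (F.map ⟨f, hf⟩) (fun l hl => by
    obtain ⟨l', hl', rfl⟩ := Finset.mem_map.1 hl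
    exact hF l' hl')
  rwa [Finset.card_map] at h1

/-- The relation between the orders. -/
theorem rel_zpow {k : ℕ} (V : ValuationSubring ℂ) {w : V.ValueGroup} (hw1 : w < 1)
    (hw0 : w ≠ 0) {x : Fin k → ℂ} {d : Fin k → ℤ} {Y : Finset (Fin k)}
    (hY : ∀ j ∈ Y, V.valuation (x j) = w ^ d j) {a : Fin k → ℤ} (ha : ∀ j, j ∉ Y → a j = 0)
    (h1 : W282.ZP.chi (fun j => V.valuation (x j)) a = 1) : ∑ j, a j * d j = 0 := by
  classical
  have h2 : W282.ZP.chi (fun i => V.valuation (x i)) a = w ^ (∑ i, a i * d i) := by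
    have h3 : ∀ i, V.valuation (x i) ^ a i = w ^ (a i * d i) := by
      intro i
      by_cases hi : i ∈ Y
      · rw [hY i hi, ← zpow_mul, mul_comm]
      · rw [ha i hi]
        simp
    rw [W282.ZP.chi, Finset.prod_congr rfl fun i _ => h3 i]
    have h5 : ∀ s : Finset (Fin k), ∏ i ∈ s, w ^ (a i * d i) = w ^ (∑ i ∈ s, a i * d i) := by
      intro s
      induction s using Finset.induction_on with
      | empty => simp
      | insert j s hj ih =>
        rw [Finset.prod_insert hj, Finset.sum_insert hj, zpow_add₀ hw0, ih]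
    exact h5 _
  rw [h2] at h1
  exact W282.ZP.zpow_eq_one V w (zero_lt_iff.2 hw0) hw1 h1

/-- The restriction of independent exponents. -/
theorem IndPos.comp {L M n T : ℕ} {e : Fin M → Fin n → ℕ} (h : IndPos T e) (f : Fin L → Fin M)
    (hf : Function.Injective f) : IndPos T fun l i => e (f l) i := by
  classical
  intro P hP hpos
  have hinj : Function.Injective (fun x : Fin L × Fin n => (f x.1, x.2)) := by
    rintro ⟨x1, x2⟩ ⟨y1, y2⟩ h
    obtain ⟨h1, h2⟩ := Prod.mk.inj h
    exact Prod.ext (hf h1) h2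
  have h1 := h (P.map ⟨_, hinj⟩) (Finset.Nonempty.map hP) (fun x hx => by
    obtain ⟨y, hy, rfl⟩ := Finset.mem_map.1 hx
    exact hpos y hy)
  rwa [Finset.prod_map] at h1

/-- The combinatorial core. -/
theorem coreMP {Λ : Type} [CommRing Λ] [IsDomain Λ] [Algebra Λ ℂ] {F : Type} [Field F]
    [Algebra F ℂ] {n k m τ L : ℕ} (β : ℕ → ℕ)
    (hL : ∀ s ≤ m + 1, β s + (m + 1 - s) * (τ + 1) + 1 ≤ L)
    (e : Fin L → Fin n → ℕ) (he : IndPos 1 e)
    (hτ : ∀ i, (Finset.univ.filter fun l => e l i = 0).card ≤ τ)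
    (d : Fin L → Fin k → ℤ) (hrig : Rigid m β d)
    {r : ℕ} (cls : Fin n → Option (Fin r)) (δ : Fin n → ℕ) (x : Fin n ⊕ Fin k → ℂ)
    (M : Submodule ℤ (Fin k → ℤ)) (η : Fin k → ℂ)
    (hδ : ∀ i, 0 < δ i)
    (hconst : ∀ i, cls i = none → IsAlgebraic Λ (x (Sum.inl i)))
    (hrel : ∀ i j l, cls i = some l → cls j = some l →
        IsIntegral (Algebra.adjoin ℤ {x (Sum.inl i)}) (x (Sum.inl j)) ∧
        Polynomial.eval₂ (Polynomial.aeval (x (Sum.inl i)) : Polynomial ℂ →ₐ[ℂ] ℂ).toRingHom
          (x (Sum.inl j)) (W282.ZP.Psi (δ i * δ j)) = 0)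
    (hx0 : ∀ j, x (Sum.inr j) ≠ 0) (hηF : ∀ j, ∃ u : F, η j = algebraMap F ℂ u)
    (hM : ∀ a ∈ M, W282.ZP.chi (fun j => x (Sum.inr j)) a = W282.ZP.chi η a)
    (S : Finset (Fin n ⊕ Fin k)) (hS : AlgebraicIndependent Λ (fun i : S => x i))
    (hSF : AlgebraicIndependent F (fun i : S => x i))
    (V : Fin L → ValuationSubring ℂ) (g : ∀ l, (V l).ValueGroup)
    (hg0 : ∀ l, g l ≠ 0) (hg : ∀ l, g l < 1)
    (hVc : ∀ l i, cls i = none → (V l).valuation (x (Sum.inl i)) ≤ 1)
    (hVx : ∀ l (i : S), (V l).valuation (x i) = 1)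
    (hVη : ∀ l j, (V l).valuation (η j) = 1)
    (hgood : ∀ l, ∃ E : Finset (Fin n ⊕ Fin k), E.card ≤ m ∧
      (∀ i, Sum.inl i ∉ E → (0 < e l i → (V l).valuation (x (Sum.inl i)) * g l ^ e l i = 1) ∧
        (e l i = 0 → (V l).valuation (x (Sum.inl i)) ≤ 1)) ∧
      ∀ j, Sum.inr j ∉ E → (V l).valuation (x (Sum.inr j)) = g l ^ d l j) :
    S.card + n + Module.finrank ℤ M ≤ r + m := by
  classical
  have hQ : ∀ i j, 0 < δ i * δ j := fun i j => Nat.mul_pos (hδ i) (hδ j)
  have hV1 : ∀ l i j k, cls i = some k → cls j = some k → (V l).valuation (x (Sum.inl i)) ≤ 1 →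
      (V l).valuation (x (Sum.inl j)) ≤ 1 := by
    intro l i j k hi hj h1
    exact ((W282.ZP.Psi_spec (hQ i j)).2.2 ℂ (V l) _ _ (hrel i j k hi hj).2).1 h1
  -- the two parts of `S`
  let U : Finset (Fin n) := S.toLeft
  let T' : Finset (Fin k) := S.toRight
  have hScard : U.card + T'.card = S.card := S.card_toLeft_add_card_toRight
  have hSsome : ∀ t : U, ∃ k, cls t = some k := by
    intro t
    have ht : Sum.inl (t : Fin n) ∈ S := Finset.mem_toLeft.1 t.2
    cases hc : cls t with
    | none => exact ((hS.transcendental ⟨Sum.inl t, ht⟩) (hconst t hc)).elim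
    | some k => exact ⟨k, rfl⟩
  choose cl hcl using hSsome
  have hclinj : Function.Injective cl := by
    intro t t' htt
    by_contra hne
    refine not_algInd'' hS (i := ⟨Sum.inl (t : Fin n), Finset.mem_toLeft.1 t.2⟩)
      (j := ⟨Sum.inl (t' : Fin n), Finset.mem_toLeft.1 t'.2⟩) ?_
      (hrel t t' (cl t) (hcl t) (by rw [htt]; exact hcl t')).1
    intro h
    apply hne
    have h1 := Sum.inl_injective (congrArg Subtype.val h)
    exact Subtype.ext h1
  -- the lattice of relations, enlarged by the independent torus coordinates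
  set xt : Fin k → ℂ := fun j => x (Sum.inr j) with hxt
  have hT' : AlgebraicIndependent F (fun j : T' => xt j) := by
    have h1 := hSF.comp (fun j : T' => (⟨Sum.inr (j : Fin k), Finset.mem_toRight.1 j.2⟩ : S))
      (by
        intro j j' h
        have h1 := Sum.inr_injective (congrArg Subtype.val h)
        exact Subtype.ext h1)
    exact h1
  let M' : Submodule ℤ (Fin k → ℤ) :=
    M ⊔ Submodule.span ℤ ((fun j => Pi.single j (1 : ℤ)) '' (T' : Set (Fin k)))
  have hfin : Module.finrank ℤ M + T'.card ≤ Module.finrank ℤ M' := by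
    refine W282.ZP.finrank_add_card' xt hx0 T' hT' M ?_ M' le_sup_left ?_
    · intro a ha
      choose u hu using hηF
      refine ⟨∏ j, u j ^ a j, ?_⟩
      rw [hM a ha, W282.ZP.chi, map_prod]
      refine Finset.prod_congr rfl fun j _ => ?_
      rw [map_zpow₀, hu]
    · intro j hj
      exact Submodule.mem_sup_right (Submodule.subset_span ⟨j, hj, rfl⟩)
  have hv0 : ∀ l i, (V l).valuation (xt i) ≠ 0 := fun l i => (Valuation.ne_zero_iff _).2 (hx0 i)
  have hle : ∀ l, M' ≤ W282.ZP.oneLat (fun i => (V l).valuation (xt i)) (hv0 l) := by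
    intro l
    refine sup_le ?_ (Submodule.span_le.2 ?_)
    · intro b hb
      change W282.ZP.chi (fun i => (V l).valuation (xt i)) b = 1
      have h1 : W282.ZP.chi (fun i => (V l).valuation (xt i)) b =
          (V l).valuation (W282.ZP.chi xt b) := by
        simp [W282.ZP.chi]
      rw [h1, hM b hb]
      simp only [W282.ZP.chi, map_prod, map_zpow₀, hVη l, one_zpow, Finset.prod_const_one]
    · rintro _ ⟨j, hj, rfl⟩
      change W282.ZP.chi (fun i => (V l).valuation (xt i)) (Pi.single j (1 : ℤ)) = 1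
      rw [W282.ZP.chi_single]
      exact hVx l ⟨Sum.inr j, Finset.mem_toRight.1 hj⟩
  by_contra hcon
  push Not at hcon
  let Fr : Finset (Option (Fin r)) := (Finset.univ.filter fun k : Fin r =>
    k ∉ Finset.univ.image cl).image some
  have hFr : Fr.card + U.card = r := by
    have h1 : Fr.card = (Finset.univ.filter fun k : Fin r =>
        k ∉ Finset.univ.image cl).card :=
      Finset.card_image_of_injective _ (Option.some_injective _)
    have h2 : (Finset.univ.filter fun k : Fin r => k ∈ Finset.univ.image cl).card = U.card := by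
      have h3 : (Finset.univ.filter fun k : Fin r => k ∈ Finset.univ.image cl) =
          Finset.univ.image cl := by
        ext k; simp
      rw [h3, Finset.card_image_of_injective _ hclinj, Finset.card_univ, Fintype.card_coe]
    have := Finset.card_filter_add_card_filter_not (s := (Finset.univ : Finset (Fin r)))
      (fun k => k ∈ Finset.univ.image cl)
    rw [Finset.card_univ, Fintype.card_fin] at this
    rw [h1]
    omega
  choose E hE hEg hEt using hgood
  have hgt : ∀ l i, Sum.inl i ∉ E l → 0 < e l i → 1 < (V l).valuation (x (Sum.inl i)) := by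
    intro l i hi h0
    by_contra hle
    push Not at hle
    have h1 : (V l).valuation (x (Sum.inl i)) * g l ^ e l i < 1 :=
      (mul_le_of_le_one_left' hle).trans_lt (pow_lt_one₀ zero_le (hg l) h0.ne')
    rw [(hEg l i hi).1 h0] at h1
    exact lt_irrefl _ h1
  have hmaps : ∀ l i, Sum.inl i ∉ E l → 0 < e l i → cls i ∈ Fr := by
    intro l i hi h0
    have h1 := hgt l i hi h0
    cases hc : cls i with
    | none => exact absurd h1 (not_lt.2 (hVc l i hc))
    | some k =>
      refine Finset.mem_image_of_mem _ (Finset.mem_filter.2 ⟨Finset.mem_univ _, ?_⟩)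
      intro hk
      obtain ⟨t, -, ht⟩ := Finset.mem_image.1 hk
      have h3 := hV1 l t i k (ht ▸ hcl t) hc
        (hVx l ⟨Sum.inl (t : Fin n), Finset.mem_toLeft.1 t.2⟩).le
      exact absurd h1 (not_lt.2 h3)
  -- the places of the two kinds
  have hfk : Module.finrank ℤ M' ≤ k := by
    have h1 := Submodule.finrank_le M'
    rwa [Module.finrank_fin_fun] at h1
  let s0 : ℕ := min (Module.finrank ℤ M') (m + 1)
  let FT : Finset (Fin L) := Finset.univ.filter fun l => (E l).toRight.card < Module.finrank ℤ M'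
  have hsum : FTᶜ.card + FT.card = L := by
    have := Finset.card_compl_add_card FT
    rwa [Fintype.card_fin] at this
  have hcardE : ∀ l, (E l).toLeft.card + (E l).toRight.card = (E l).card := fun l =>
    (E l).card_toLeft_add_card_toRight
  have hr : ∀ l, (E l).toRight.card ≤ m := fun l => by
    have h1 := hcardE l
    have h2 := hE l
    omega
  have hFT : FT.card ≤ β s0 := by
    refine hrig s0 (orth M') (min_le_right _ _) (finrank_orth M' (min_le_left _ _)) FT
      fun l hl => ?_
    have hl1 := (Finset.mem_filter.1 hl).2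
    obtain ⟨v, hv, hvc⟩ := exists_vec M' (E l).toRight (fun j => (d l j : ℚ)) (by
      intro a ha haY
      have h1 : ∀ j ∈ ((E l).toRight)ᶜ, (V l).valuation (xt j) = g l ^ d l j := by
        intro j hj
        rw [Finset.mem_compl, Finset.mem_toRight] at hj
        exact hEt l j hj
      have h2 := rel_zpow (V l) (hg l) (hg0 l) (x := xt) (d := d l) h1 (a := a) (fun j hj => haY j (by
          rwa [Finset.mem_compl, not_not] at hj)) (hle l ha)
      exact_mod_cast h2)
    refine ⟨v, hv, ?_⟩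
    have h3 : hammingDist v (fun j => (d l j : ℚ)) ≤ (E l).toRight.card := by
      refine Finset.card_le_card fun j hj => ?_
      by_contra h4
      exact (Finset.mem_filter.1 hj).2 (hvc j h4)
    have h4 := hr l
    exact lt_min (h3.trans_lt hl1) (Nat.lt_succ_of_le (h3.trans h4))
  have hL0 := hL s0 (min_le_right _ _)
  have hmem : ∀ l ∈ FTᶜ, Module.finrank ℤ M' ≤ (E l).toRight.card := by
    intro l hl
    by_contra h
    push Not at h
    exact Finset.mem_compl.1 hl (Finset.mem_filter.2 ⟨Finset.mem_univ _, h⟩)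
  have hne : FTᶜ.Nonempty := Finset.card_pos.1 (by omega)
  obtain ⟨l0, hl0⟩ := hne
  have hfm0 : Module.finrank ℤ M' ≤ m := (hmem l0 hl0).trans (hr l0)
  have hs0 : s0 = Module.finrank ℤ M' := min_eq_left (by omega)
  obtain ⟨ρ, hρ⟩ : ∃ ρ, ρ = Module.finrank ℤ M' := ⟨_, rfl⟩
  rw [← hρ] at hfm0 hs0 hfin hmem
  let f : Fin FTᶜ.card → Fin L := fun l => FTᶜ.orderEmbOfFin rfl l
  have hf : Function.Injective f := (FTᶜ.orderEmbOfFin rfl).injective
  have hfm : ∀ l, f l ∈ FTᶜ := fun l => Finset.orderEmbOfFin_mem FTᶜ rfl l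
  have hcard : (m - ρ + 1) * (τ + 1) < FTᶜ.card := by
    rw [hs0] at hL0 hFT
    have h1 : m + 1 - ρ = m - ρ + 1 := by omega
    rw [h1] at hL0
    omega
  have hsp : Spread (m - ρ) fun l i => e (f l) i := by
    refine spread_of_few _ hcard fun i => ?_
    refine le_trans ?_ (hτ i)
    rw [← Finset.card_map ⟨f, hf⟩]
    refine Finset.card_le_card fun l hl => ?_
    obtain ⟨l', hl', rfl⟩ := Finset.mem_map.1 hl
    exact Finset.mem_filter.2 ⟨Finset.mem_univ _, (Finset.mem_filter.1 hl').2⟩
  refine no_relP (m := m - ρ) (fun l i => e (f l) i) (IndPos.comp he f hf) hsp δ hδ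
    (fun l => (E (f l)).toLeft) (fun l => ?_) cls Fr
    (fun l i hi h0 => hmaps (f l) i (fun h => hi (Finset.mem_toLeft.2 h)) h0) (by omega) ?_ ?_
  · have h1 := hcardE (f l)
    have h2 := hE (f l)
    have h3 := hmem _ (hfm l)
    show (E (f l)).toLeft.card ≤ m - ρ
    omega
  · intro l i j hi h0 hj hj0 hij
    have hi' : Sum.inl i ∉ E (f l) := fun h => hi (Finset.mem_toLeft.2 h)
    have hj' : Sum.inl j ∉ E (f l) := fun h => hj (Finset.mem_toLeft.2 h)
    obtain ⟨k, -, hk⟩ := Finset.mem_image.1 (hmaps (f l) i hi' h0)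
    have h1 := hV1 (f l) j i k (hij.trans hk.symm) hk.symm ((hEg (f l) j hj').2 hj0)
    exact absurd (hgt (f l) i hi' h0) (not_lt.2 h1)
  · intro l i j hi hj hi0 hj0 _ hcls
    have hi' : Sum.inl i ∉ E (f l) := fun h => hi (Finset.mem_toLeft.2 h)
    have hj' : Sum.inl j ∉ E (f l) := fun h => hj (Finset.mem_toLeft.2 h)
    obtain ⟨k, -, hk⟩ := Finset.mem_image.1 (hmaps (f l) i hi' hi0)
    have h1 := sq_tie' (a := 1) (b := 1) (a' := 1) (b' := 1) (hQ i j)
      (hrel i j k hk.symm (hcls ▸ hk.symm)).2 (V (f l)) (hg (f l))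
        ((hEg (f l) i hi').1 hi0) ((hEg (f l) j hj').1 hj0) (hgt (f l) i hi' hi0) rfl rfl
    exact ⟨1, Smo.one 1, by simpa using h1⟩

end Pool.Agent.Q209.MP
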