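import Pool.Agent.Q209.MP.Core
import Pool.Agent.Q170.ZP.MixCrit
import Pool.Agent.Q170.PD.Trans

/-!
The local criterion in products of modular curves and tori for partial degenerations (helper file;
adapted from `Pool.Agent.Q170.RG.Crit` and `Pool.Agent.Q170.PD.Core`).
-/

set_option autoImplicit false

open Function UpperHalfPlane H294ZP MvPolynomial Pool.Agent.W466.ZC Pool.Agent.TH526.ZL

namespace Pool.Agent.Q209.MP

open Pool.Agent
open Pool.Agent.Q170.PD (IndPos Spread good_placeP)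
open Pool.Agent.Y152.RP.FamM (SpecialVariety SpecialVariety.locus coset NoAtypical)

/-- the orders of the modular coordinates, and `1` for the torus coordinates -/
def needs {n k : ℕ} (e : Fin n ⊕ Fin k → ℕ) : Fin n ⊕ Fin k → ℕ :=
  Sum.elim (fun i => e (Sum.inl i)) fun _ => 1

/-- From the values of the forms to the orders of the coordinates. -/
theorem bad_setM (V : ValuationSubring ℂ) {n k m : ℕ} (e : Fin n ⊕ Fin k → ℕ) (e' : Fin k → ℕ)
    (a b c x : Fin n ⊕ Fin k → ℂ) (c' : Fin k → ℂ)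
    (g : V.ValueGroup) (hg0 : g ≠ 0) (ha : ∀ i, V.valuation (a i) ≤ 1)
    (hb : ∀ i, V.valuation (b i) ≤ 1)
    (hI : ∀ I : Finset (Fin n ⊕ Fin k), I.card = m + 1 → ∃ i ∈ I,
      V.valuation (if 0 < needs e i then a i * b i else b i) = 1)
    (hc : ∀ i, V.valuation (c i) = g ^ e i) (hc' : ∀ j, V.valuation (c' j) = g ^ e' j)
    (hx : ∀ i, c (Sum.inl i) * b (Sum.inl i) * x (Sum.inl i) = a (Sum.inl i))
    (hx' : ∀ j, c (Sum.inr j) * b (Sum.inr j) * x (Sum.inr j) = c' j * a (Sum.inr j)) :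
    ∃ E : Finset (Fin n ⊕ Fin k), E.card ≤ m ∧
      (∀ i, Sum.inl i ∉ E →
        (0 < e (Sum.inl i) → V.valuation (x (Sum.inl i)) * g ^ e (Sum.inl i) = 1) ∧
        (e (Sum.inl i) = 0 → V.valuation (x (Sum.inl i)) ≤ 1)) ∧
      ∀ j, Sum.inr j ∉ E → V.valuation (x (Sum.inr j)) = g ^ ((e' j : ℤ) - e (Sum.inr j)) := by
  classical
  have key : ∀ i, V.valuation (a i * b i) = 1 → V.valuation (a i) = 1 ∧ V.valuation (b i) = 1 := by
    intro i h1
    rw [map_mul] at h1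
    have hA2 : V.valuation (a i) = 1 := by
      refine le_antisymm (ha i) ?_
      by_contra h
      push Not at h
      have h2 := (mul_le_of_le_one_right' (hb i)).trans_lt h
      rw [h1] at h2
      exact lt_irrefl _ h2
    rw [hA2, one_mul] at h1
    exact ⟨hA2, h1⟩
  refine ⟨Finset.univ.filter fun i =>
      ¬ V.valuation (if 0 < needs e i then a i * b i else b i) = 1, ?_, ?_, ?_⟩
  · by_contra h
    push Not at h
    obtain ⟨I, hIE, hIc⟩ := Finset.exists_subset_card_eq (Nat.succ_le_of_lt h)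
    obtain ⟨i, hi, h1⟩ := hI I hIc
    exact (Finset.mem_filter.1 (hIE hi)).2 h1
  · intro i hi
    rw [Finset.mem_filter] at hi
    push Not at hi
    have h1 := hi (Finset.mem_univ _)
    have h4 := congrArg V.valuation (hx i)
    rw [map_mul, map_mul, hc] at h4
    have hn : needs e (Sum.inl i) = e (Sum.inl i) := rfl
    rw [hn] at h1
    refine ⟨fun h0 => ?_, fun h0 => ?_⟩
    · rw [if_pos h0] at h1
      obtain ⟨h2, h3⟩ := key _ h1
      rw [h2, h3, mul_one] at h4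
      rw [mul_comm]
      exact h4
    · rw [if_neg (by omega)] at h1
      rw [h0, pow_zero, one_mul, h1, one_mul] at h4
      rw [h4]
      exact ha _
  · intro j hj
    rw [Finset.mem_filter] at hj
    push Not at hj
    have h1 := hj (Finset.mem_univ _)
    have hn : needs e (Sum.inr j) = 1 := rfl
    rw [hn, if_pos one_pos] at h1
    obtain ⟨h2, h3⟩ := key _ h1
    have h4 := congrArg V.valuation (hx' j)
    rw [map_mul, map_mul, map_mul, hc, hc', h2, h3, mul_one, mul_one] at h4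
    rw [zpow_sub₀ hg0, zpow_natCast, zpow_natCast, ← h4, mul_comm, mul_div_assoc, div_self
      (pow_ne_zero _ hg0), mul_one]

/-- The local criterion, for points. -/
theorem criterionMP {Λ : Type} [CommRing Λ] [IsDomain Λ] [Algebra Λ ℂ] {F : Type} [Field F]
    [Algebra F ℂ] {κ : Type*} {N n k m τ L : ℕ} (β : ℕ → ℕ)
    (hL : ∀ s ≤ m + 1, β s + (m + 1 - s) * (τ + 1) + 1 ≤ L)
    (G : κ → MvPolynomial (Fin (N + 1)) Λ)
    (hG : ∀ i, ∃ e, (G i).IsHomogeneous e) (A B : Fin n ⊕ Fin k → MvPolynomial (Fin (N + 1)) Λ)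
    (d : Fin n ⊕ Fin k → ℕ) (hA : ∀ i, (A i).IsHomogeneous (d i))
    (hB : ∀ i, (B i).IsHomogeneous (d i))
    (c : Fin n ⊕ Fin k → Λ) (c' : Fin k → Λ) (𝔭 : Fin L → Ideal Λ)
    (e : Fin L → Fin n ⊕ Fin k → ℕ) (e' : Fin L → Fin k → ℕ)
    (hpos : ∀ l (F : Type) [Field F] (φ : Λ →+* F), RingHom.ker φ = 𝔭 l →
      ∀ I : Finset (Fin n ⊕ Fin k),
      I.card = m + 1 → ∀ y : Fin (N + 1) → F, y ≠ 0 → (∀ k, eval₂ φ y (G k) = 0) →
      ∃ i ∈ I, eval₂ φ y (B i) ≠ 0 ∧ (0 < needs (e l) i → eval₂ φ y (A i) ≠ 0))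
    (h𝔭 : ∀ l, (𝔭 l).IsPrime)
    (π : Fin L → Λ) (hπ : ∀ l, π l ∈ 𝔭 l)
    (hπ0 : ∀ l, algebraMap Λ ℂ (π l) ≠ 0)
    (hc : ∀ l i, ∃ a b : Λ, a ∉ 𝔭 l ∧ b ∉ 𝔭 l ∧ a * c i = b * π l ^ e l i)
    (hc' : ∀ l j, ∃ a b : Λ, a ∉ 𝔭 l ∧ b ∉ 𝔭 l ∧ a * c' j = b * π l ^ e' l j)
    (he : IndPos 1 fun l i => e l (Sum.inl i))
    (hτ : ∀ i, (Finset.univ.filter fun l => e l (Sum.inl i) = 0).card ≤ τ)
    (hrig : Rigid m β fun l j => (e' l j : ℤ) - e l (Sum.inr j))
    {r : ℕ} (cls : Fin n → Option (Fin r)) (δ : Fin n → ℕ) (x : Fin n ⊕ Fin k → ℂ)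
    (M : Submodule ℤ (Fin k → ℤ)) (η : Fin k → ℂ)
    (hδ : ∀ i, 0 < δ i)
    (hconst : ∀ i, cls i = none → IsIntegral Λ (x (Sum.inl i)))
    (hrel : ∀ i j l, cls i = some l → cls j = some l →
        IsIntegral (Algebra.adjoin ℤ {x (Sum.inl i)}) (x (Sum.inl j)) ∧
        Polynomial.eval₂ (Polynomial.aeval (x (Sum.inl i)) : Polynomial ℂ →ₐ[ℂ] ℂ).toRingHom
          (x (Sum.inl j)) (W282.ZP.Psi (δ i * δ j)) = 0)
    (hx0 : ∀ j, x (Sum.inr j) ≠ 0) (hηF : ∀ j, ∃ u : F, η j = algebraMap F ℂ u)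
    (hη0 : ∀ j, η j ≠ 0) (hη1 : ∀ j, IsIntegral Λ (η j)) (hη2 : ∀ j, IsIntegral Λ (η j)⁻¹)
    (hM : ∀ a ∈ M, W282.ZP.chi (fun j => x (Sum.inr j)) a = W282.ZP.chi η a)
    (y : Fin (N + 1) → ℂ) (hy0 : y ≠ 0) (hyG : ∀ i, aeval y (G i) = 0)
    (hxy1 : ∀ i, algebraMap Λ ℂ (c (Sum.inl i)) * aeval y (B (Sum.inl i)) * x (Sum.inl i) =
      aeval y (A (Sum.inl i)))
    (hxy2 : ∀ j, algebraMap Λ ℂ (c (Sum.inr j)) * aeval y (B (Sum.inr j)) * x (Sum.inr j) =
      algebraMap Λ ℂ (c' j) * aeval y (A (Sum.inr j)))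
    (S : Finset (Fin n ⊕ Fin k)) (hS : AlgebraicIndependent Λ (fun i : S => x i))
    (hSF : AlgebraicIndependent F (fun i : S => x i)) :
    S.card + n + Module.finrank ℤ M ≤ r + m := by
  classical
  choose V hV1 hV2 hVx using fun l => exists_place1 (𝔭 l) _ hS
  have hunit : ∀ l (a : Λ), a ∉ 𝔭 l → (V l).valuation (algebraMap Λ ℂ a) = 1 := by
    intro l a ha
    refine le_antisymm (hV1 l a) ?_
    by_contra h
    push Not at h
    exact ha ((hV2 l a).1 h)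
  refine coreMP (m := m) β hL (fun l i => e l (Sum.inl i)) he hτ
    (fun l j => (e' l j : ℤ) - e l (Sum.inr j)) hrig cls δ x M η hδ
    (fun i hi => (hconst i hi).isAlgebraic) hrel hx0 hηF hM S hS hSF V
    (fun l => (V l).valuation (algebraMap Λ ℂ (π l)))
    (fun l => (Valuation.ne_zero_iff _).2 (hπ0 l)) (fun l => (hV2 l (π l)).2 (hπ l))
    (fun l i hi => mem_of_int (V l) (hV1 l) (hconst i hi)) hVx
    (fun l j => unit_of_int (V l) (hV1 l) (hη0 j) (hη1 j) (hη2 j)) ?_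
  intro l
  obtain ⟨t, ht0, hAB, hI⟩ := good_placeP G hG
    (fun i => if 0 < needs (e l) i then A i * B i else B i) (fun F _ φ hk I hI' y' hy' hG' => by
      obtain ⟨i, hi, h1, h2⟩ := hpos l F φ hk I hI' y' hy' hG'
      refine ⟨i, hi, ?_⟩
      by_cases h0 : 0 < needs (e l) i
      · rw [if_pos h0, eval₂_mul]
        exact mul_ne_zero (h2 h0) h1
      · rw [if_neg h0]
        exact h1) (V l) (hV1 l) (hV2 l) y hy0 hyG
  have hsm : ∀ (P : MvPolynomial (Fin (N + 1)) Λ) (f : ℕ), P.IsHomogeneous f →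
      aeval (t • y) P = t ^ f * aeval y P := by
    intro P f hP
    have h1 := eval_smul (hP.map (algebraMap Λ ℂ)) t y
    rwa [eval_map, eval_map, ← aeval_def, ← aeval_def] at h1
  have hval : ∀ (z : Λ) (u : ℕ), (∃ a b : Λ, a ∉ 𝔭 l ∧ b ∉ 𝔭 l ∧ a * z = b * π l ^ u) →
      (V l).valuation (algebraMap Λ ℂ z) = (V l).valuation (algebraMap Λ ℂ (π l)) ^ u := by
    rintro z u ⟨a, b, ha, hb, hab⟩
    have h5 := congrArg (fun z => (V l).valuation (algebraMap Λ ℂ z)) hab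
    simp only [map_mul, map_pow, hunit l a ha, hunit l b hb, one_mul] at h5
    exact h5
  refine bad_setM (V l) (e l) (e' l) (fun i => aeval (t • y) (A i)) (fun i => aeval (t • y) (B i))
    (fun i => algebraMap Λ ℂ (c i)) x (fun j => algebraMap Λ ℂ (c' j)) _
    ((Valuation.ne_zero_iff _).2 (hπ0 l))
    (fun i => (ValuationSubring.valuation_le_one_iff _ _).2 (hAB _))
    (fun i => (ValuationSubring.valuation_le_one_iff _ _).2 (hAB _)) (fun I hIc => ?_)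
    (fun i => hval _ _ (hc l i)) (fun j => hval _ _ (hc' l j)) (fun i => ?_) (fun j => ?_)
  · obtain ⟨i, hi, h1⟩ := hI I hIc
    refine ⟨i, hi, ?_⟩
    by_cases h0 : 0 < needs (e l) i
    · rw [if_pos h0, map_mul] at h1
      rw [if_pos h0]
      exact h1
    · rw [if_neg h0] at h1 ⊢
      exact h1
  · show algebraMap Λ ℂ (c (Sum.inl i)) * aeval (t • y) (B (Sum.inl i)) * x (Sum.inl i) =
      aeval (t • y) (A (Sum.inl i))
    rw [hsm _ _ (hA _), hsm _ _ (hB _), ← hxy1 i]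
    ring
  · show algebraMap Λ ℂ (c (Sum.inr j)) * aeval (t • y) (B (Sum.inr j)) * x (Sum.inr j) =
      algebraMap Λ ℂ (c' j) * aeval (t • y) (A (Sum.inr j))
    rw [hsm _ _ (hA _), hsm _ _ (hB _)]
    linear_combination t ^ d (Sum.inr j) * hxy2 j

open Pool.Agent.W282.ZP

/-- From points to subvarieties. -/
theorem noAtypicalM_pt {Λ : Type} [CommRing Λ] (f : Λ →+* ℂ) (K : Subfield ℂ) [Countable K]
    {n k m : ℕ} (Y : Set (Fin n ⊕ Fin k → ℂ)) (hX0 : ∀ x ∈ Y, ∀ j, x (Sum.inr j) ≠ 0)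
    (hpt : ∀ (r : ℕ) (Z : SpecialVariety f n r) (M : Submodule ℤ (Fin k → ℤ)) (η : Fin k → ℂ),
      (∀ j, η j ≠ 0 ∧ f.IsIntegralElem (η j) ∧ f.IsIntegralElem (η j)⁻¹) →
      ∀ x ∈ Y, (fun i => x (Sum.inl i)) ∈ Z.locus → (fun j => x (Sum.inr j)) ∈ coset M η →
      ∀ S : Finset (Fin n ⊕ Fin k), AlgebraicIndependent K (fun i : S => x i) →
        S.card + n + Module.finrank ℤ M ≤ r + m) : NoAtypical f K m Y := by
  classical
  intro r Z M η hη
  refine ⟨?_, hpt r Z M η hη⟩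
  intro W hW hcl hprime
  obtain ⟨w, hw⟩ := Pool.Agent.W282.ZP.nonempty_of_prime hprime
  obtain ⟨x, hxW, hx0, T, hT, hdim⟩ := Pool.Agent.W282.SI.generic_dim' K W hprime
    (β := Fin k) (fun j => X (Sum.inr j)) (by
      intro j hj
      rw [mem_idealOf] at hj
      have h2 := hj w hw
      rw [eval_X] at h2
      exact hX0 _ (hW hw).1 j h2)
  have hxA : x ∈ W := hcl x hxW fun j => by
    have h2 := hx0 j
    rwa [eval_X] at h2
  have h2 := hpt r Z M η hη x (hW hxA).1 (hW hxA).2.1 (hW hxA).2.2 T hT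
  calc zdim W + (n : Cardinal) + (Module.finrank ℤ M : Cardinal) ≤
        (T.card : Cardinal) + (n : Cardinal) + (Module.finrank ℤ M : Cardinal) := by gcongr
    _ = ((T.card + n + Module.finrank ℤ M : ℕ) : Cardinal) := by push_cast; rfl
    _ ≤ ((r + m : ℕ) : Cardinal) := by exact_mod_cast h2
    _ = (r : Cardinal) + (m : Cardinal) := by push_cast; rfl

/-- The subset of `Y(1)^n × G_m^k`: the points `x` with `c_i x_i = A_i (y) / B_i (y)` for the modular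
coordinates and `c_j x_j = c'_j A_j (y) / B_j (y)`, `x_j ≠ 0` for the torus coordinates, for a point `y`
of the projective algebraic set defined by the forms `G l`. -/
def image {R : Type} [CommRing R] (f : R →+* ℂ) {N n k : ℕ} {κ : Type}
    (G : κ → MvPolynomial (Fin (N + 1)) R) (A B : Fin n ⊕ Fin k → MvPolynomial (Fin (N + 1)) R)
    (c : Fin n ⊕ Fin k → R) (c' : Fin k → R) : Set (Fin n ⊕ Fin k → ℂ) :=
  {x | (∀ j, x (Sum.inr j) ≠ 0) ∧ ∃ y : Fin (N + 1) → ℂ, y ≠ 0 ∧ (∀ l, eval₂ f y (G l) = 0) ∧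
    (∀ i, f (c (Sum.inl i)) * eval₂ f y (B (Sum.inl i)) * x (Sum.inl i) =
      eval₂ f y (A (Sum.inl i))) ∧
    ∀ j, f (c (Sum.inr j)) * eval₂ f y (B (Sum.inr j)) * x (Sum.inr j) =
      f (c' j) * eval₂ f y (A (Sum.inr j))}

/-- From an algebraically closed field to all fields with the same kernel. -/
theorem general_transferM {Λ : Type} [CommRing Λ] {κ ι : Type} {N m : ℕ}
    (G : κ → MvPolynomial (Fin (N + 1)) Λ) (A B : ι → MvPolynomial (Fin (N + 1)) Λ)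
    (e : ι → ℕ) {F₀ : Type} [Field F₀] [IsAlgClosed F₀] (red : Λ →+* F₀)
    (h : ∀ I : Finset ι, I.card = m + 1 → ∀ y : Fin (N + 1) → F₀, y ≠ 0 →
      (∀ k, eval₂ red y (G k) = 0) →
      ∃ i ∈ I, eval₂ red y (B i) ≠ 0 ∧ (0 < e i → eval₂ red y (A i) ≠ 0))
    (F : Type) [Field F] (φ : Λ →+* F) (hφ : RingHom.ker φ = RingHom.ker red)
    (I : Finset ι) (hI : I.card = m + 1) (y : Fin (N + 1) → F) (hy0 : y ≠ 0)
    (hyG : ∀ k, eval₂ φ y (G k) = 0) :
    ∃ i ∈ I, eval₂ φ y (B i) ≠ 0 ∧ (0 < e i → eval₂ φ y (A i) ≠ 0) := by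
  classical
  by_contra hcon
  push Not at hcon
  apply hy0
  refine TH526.ZL.transfer
    (fun b : κ ⊕ I => Sum.elim (fun k => G k) (fun i : I => Q170.PD.W0 (e i) (A i) (B i)) b) red
    ?_ φ hφ y ?_
  · intro y'' hy''
    by_contra h0
    obtain ⟨i, hi, h1⟩ := h I hI y'' h0 (fun k => hy'' (Sum.inl k))
    exact (Q170.PD.W0_ne _ _ _ _ _).2 h1 (hy'' (Sum.inr ⟨i, hi⟩))
  · rintro (k | i)
    · exact hyG k
    · simp only [Sum.elim_inr]
      by_contra h0
      obtain ⟨h1, h2⟩ := (Q170.PD.W0_ne φ _ _ _ _).1 h0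
      obtain ⟨h3, h4⟩ := hcon i i.2 h1
      exact h2 h3 h4

end Pool.Agent.Q209.MP
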